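import Mathlib

/-!
# Transfer of asymptotic properties
-/

set_option autoImplicit false

namespace Run7.h116.VX

open Filter Topology
open scoped Real

variable {J J' : ℕ → ℂ} {L : ℂ} {V : ℝ} {l : Filter ℕ}

/-- the second sequence does not vanish -/
lemma tra_ne (hL : L ≠ 0) (hq : Tendsto (fun N => J' N / J N) l (𝓝 L)) : ∀ᶠ N in l, J' N ≠ 0 := by
  filter_upwards [hq.eventually_ne hL] with N hN h
  exact hN (by rw [h, zero_div])

/-- the phases -/
lemma tra_phase (hL : L ≠ 0) (hq : Tendsto (fun N => J' N / J N) l (𝓝 L)) (h0 : ∀ᶠ N in l, J N ≠ 0)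
    {u : ℂ} (hu : Tendsto (fun N => J N / (‖J N‖ : ℝ)) l (𝓝 u)) :
    Tendsto (fun N => J' N / (‖J' N‖ : ℝ)) l (𝓝 (L / (‖L‖ : ℝ) * u)) := by
  have hLn : ((‖L‖ : ℝ) : ℂ) ≠ 0 := by exact_mod_cast (norm_pos_iff.2 hL).ne'
  have h1 : Tendsto (fun N => ((‖J' N / J N‖ : ℝ) : ℂ)) l (𝓝 ((‖L‖ : ℝ) : ℂ)) :=
    (Complex.continuous_ofReal.tendsto _).comp hq.norm
  have h2 := (hq.div h1 hLn).mul hu
  refine h2.congr' ?_
  filter_upwards [h0, tra_ne hL hq] with N h3 h4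
  have h5 : ((‖J N‖ : ℝ) : ℂ) ≠ 0 := by exact_mod_cast (norm_pos_iff.2 h3).ne'
  have h6 : ((‖J' N‖ : ℝ) : ℂ) ≠ 0 := by exact_mod_cast (norm_pos_iff.2 h4).ne'
  show J' N / J N / ((‖J' N / J N‖ : ℝ) : ℂ) * (J N / (‖J N‖ : ℝ)) = _
  rw [norm_div]
  push_cast
  field_simp

/-- the phases of the ratios -/
lemma phase_of {u : ℂ} (hu0 : u ≠ 0) (p : ℕ) (hl : Tendsto (fun N => N + p) l l)
    (hu : Tendsto (fun N => J N / (‖J N‖ : ℝ)) l (𝓝 u)) :
    Tendsto (fun N => J (N + p) / J N / (‖J (N + p) / J N‖ : ℝ)) l (𝓝 1) := by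
  have h1 := (hu.comp hl).div hu hu0
  rw [div_self hu0] at h1
  refine h1.congr fun N => ?_
  show J (N + p) / (‖J (N + p)‖ : ℝ) / (J N / (‖J N‖ : ℝ)) = _
  rw [norm_div]
  push_cast
  exact div_div_div_comm _ _ _ _

/-- the growth -/
lemma tra_growth (hL : L ≠ 0) (hq : Tendsto (fun N => J' N / J N) atTop (𝓝 L))
    (h0 : ∀ᶠ N in atTop, J N ≠ 0)
    (h : Tendsto (fun N : ℕ => 2 * Real.pi * (Real.log ‖J N‖ / N)) atTop (𝓝 V)) :
    Tendsto (fun N : ℕ => 2 * Real.pi * (Real.log ‖J' N‖ / N)) atTop (𝓝 V) := by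
  have h1 : Tendsto (fun N => Real.log ‖J' N / J N‖) atTop (𝓝 (Real.log ‖L‖)) :=
    (Real.continuousAt_log (norm_pos_iff.2 hL).ne').tendsto.comp hq.norm
  have h2 : Tendsto (fun N : ℕ => Real.log ‖J' N / J N‖ / N) atTop (𝓝 0) :=
    h1.div_atTop tendsto_natCast_atTop_atTop
  have h3 := h.add (h2.const_mul (2 * Real.pi))
  rw [mul_zero, add_zero] at h3
  refine h3.congr' ?_
  filter_upwards [h0, tra_ne hL hq] with N h4 h5
  rw [norm_div, Real.log_div (norm_pos_iff.2 h5).ne' (norm_pos_iff.2 h4).ne']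
  ring

/-- the logarithms -/
lemma tra_log (hL : L ∈ Complex.slitPlane) (hq : Tendsto (fun N => J' N / J N) atTop (𝓝 L))
    (h0 : ∀ᶠ N in atTop, J N ≠ 0)
    (h : ∃ l : ℕ → ℂ, (∀ᶠ N in atTop, Complex.exp (l N) = J N) ∧
      Tendsto (fun N : ℕ => 2 * (Real.pi : ℂ) / N * l N) atTop (𝓝 (V : ℂ))) :
    ∃ l : ℕ → ℂ, (∀ᶠ N in atTop, Complex.exp (l N) = J' N) ∧
      Tendsto (fun N : ℕ => 2 * (Real.pi : ℂ) / N * l N) atTop (𝓝 (V : ℂ)) := by
  obtain ⟨l, h1, h2⟩ := h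
  have hL0 : L ≠ 0 := Complex.slitPlane_ne_zero hL
  refine ⟨fun N => l N + Complex.log (J' N / J N), ?_, ?_⟩
  · filter_upwards [h0, h1, tra_ne hL0 hq] with N h3 h4 h5
    rw [Complex.exp_add, h4, Complex.exp_log (div_ne_zero h5 h3), mul_div_cancel₀ _ h3]
  · have h3 : Tendsto (fun N => Complex.log (J' N / J N)) atTop (𝓝 (Complex.log L)) :=
      hq.clog hL
    have h4 : Tendsto (fun N : ℕ => 2 * (Real.pi : ℂ) / N) atTop (𝓝 0) :=
      tendsto_const_div_atTop_nhds_zero_nat _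
    have h5 := h2.add (h4.mul h3)
    rw [zero_mul, add_zero] at h5
    refine h5.congr fun N => ?_
    ring

/-- the ratios -/
lemma tra_ratio (hL : L ≠ 0) (hq : Tendsto (fun N => J' N / J N) l (𝓝 L))
    (h0 : ∀ᶠ N in l, J N ≠ 0) (p : ℕ) (hl : Tendsto (fun N => N + p) l l) {c : ℂ} :
    Tendsto (fun N => J' (N + p) / J' N) l (𝓝 c) ↔ Tendsto (fun N => J (N + p) / J N) l (𝓝 c) := by
  have h1 := hq.div (hq.comp hl) hL
  have h2 := (hq.comp hl).div hq hL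
  rw [div_self hL] at h1 h2
  have hn := tra_ne hL hq
  constructor
  · intro hc
    have h3 := hc.mul h1
    rw [mul_one] at h3
    refine h3.congr' ?_
    filter_upwards [h0, hl.eventually h0, hn, hl.eventually hn] with N a b c d
    show J' (N + p) / J' N * (J' N / J N / (J' (N + p) / J (N + p))) = _
    field_simp
  · intro hc
    have h3 := hc.mul h2
    rw [mul_one] at h3
    refine h3.congr' ?_
    filter_upwards [h0, hl.eventually h0, hn, hl.eventually hn] with N a b c d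
    show J (N + p) / J N * (J' (N + p) / J (N + p) / (J' N / J N)) = _
    field_simp

end Run7.h116.VX
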