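import Pool.Agent.Run7.h116.VX.Fin
import Pool.Agent.Run7.h116.VX.Tra
import Pool.Agent.R807.Phase
import Pool.Agent.R807.Ratio

/-!
# The asymptotic properties of the invariants of the twisted links
-/

set_option autoImplicit false

namespace Run7.h116.VX

open Finset Filter Topology Pool.Agent.H550R3.Jones Pool.Agent.W711.HT Pool.Agent.Y472
open Pool.Agent.W715.VC (axisClosure rt wpow dual)
open Pool.Agent.W719.BX (uA)
open Pool.Agent.R807.Phase (tN hu_uA)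
open Run7.h260.VC (wd)
open GapVol (lob)
open scoped Real

lemma word_eq (n : ℕ) : ftw 0 ++ bw (wd n) = wpow (uA 1 ++ dual (uA 1)) n := by
  rw [bw, wd, List.map_replicate]
  rfl

lemma Jx_zero {n N : ℕ} (hN : 0 < N) : Jx n 0 N =
    -Complex.exp (3 * (Real.pi : ℂ) * Complex.I / N) * ((tN (uA 1) n N : ℝ) : ℂ) := by
  unfold Jx
  rw [word_eq]
  exact Pool.Agent.R807.Phase.cjones_phase hN (hu_uA 1) n

/-- the volume -/
noncomputable def Vn (n : ℕ) : ℝ := n * (8 * lob (π / 6))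

lemma base {n : ℕ} (hn : 1 ≤ n) : 0 < Vn n ∧ (∀ᶠ N : ℕ in atTop, 0 < tN (uA 1) n N) ∧
    Tendsto (fun N : ℕ => 2 * Real.pi / N * Real.log (tN (uA 1) n N)) atTop (𝓝 (Vn n)) := by
  obtain ⟨g1, g2⟩ := Pool.Agent.R807.Phase.fam_one hn
  obtain ⟨g3, g4⟩ := Pool.Agent.R807.Phase.phase_main (hu_uA 1) (by omega : n ≠ 0) g1 g2
  exact ⟨g1, g3, g4⟩

lemma zero_eq (n : ℕ) : ∀ᶠ N in atTop, Jx n 0 N =
    -Complex.exp (3 * (Real.pi : ℂ) * Complex.I / N) * ((tN (uA 1) n N : ℝ) : ℂ) := by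
  filter_upwards [eventually_gt_atTop 0] with N hN
  exact Jx_zero hN

lemma zero_norm (n : ℕ) : ∀ᶠ N in atTop, 0 < tN (uA 1) n N → ‖Jx n 0 N‖ = tN (uA 1) n N := by
  filter_upwards [zero_eq n] with N g1 g2
  rw [g1, norm_mul, Pool.Agent.R807.Ratio.exp_norm, one_mul, Complex.norm_real,
    Real.norm_eq_abs, abs_of_pos g2]

lemma zero_ne {n : ℕ} (hn : 1 ≤ n) : ∀ᶠ N in atTop, Jx n 0 N ≠ 0 := by
  obtain ⟨-, h2, -⟩ := base hn
  filter_upwards [h2, zero_norm n] with N g1 g2 h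
  have := g2 g1
  rw [h, norm_zero] at this
  linarith

lemma zero_phase {n : ℕ} (hn : 1 ≤ n) :
    Tendsto (fun N => Jx n 0 N / (‖Jx n 0 N‖ : ℝ)) atTop (𝓝 (-1)) := by
  obtain ⟨-, h2, -⟩ := base hn
  refine Pool.Agent.R807.Ratio.exp_tendsto.congr' ?_
  filter_upwards [zero_eq n, zero_norm n, h2] with N g1 g2 g3
  rw [g2 g3, g1]
  exact (mul_div_cancel_right₀ _ (by exact_mod_cast g3.ne')).symm

lemma zero_growth {n : ℕ} (hn : 1 ≤ n) :
    Tendsto (fun N : ℕ => 2 * Real.pi * (Real.log ‖Jx n 0 N‖ / N)) atTop (𝓝 (Vn n)) := by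
  obtain ⟨-, h2, h3⟩ := base hn
  refine h3.congr' ?_
  filter_upwards [zero_norm n, h2] with N g2 g3
  rw [g2 g3]
  ring

lemma zero_log {n : ℕ} (hn : 1 ≤ n) : ∃ l : ℕ → ℂ, (∀ᶠ N in atTop, Complex.exp (l N) = Jx n 0 N) ∧
    Tendsto (fun N : ℕ => 2 * (Real.pi : ℂ) / N * l N) atTop (𝓝 (Vn n : ℂ)) := by
  obtain ⟨-, h2, h3⟩ := base hn
  exact Pool.Agent.R807.Ratio.branch (zero_eq n) h2 h3

lemma zero_ratio {n : ℕ} (hn : 1 ≤ n) {c : ℂ}
    (hc : Tendsto (fun N => Jx n 0 (N + 1) / Jx n 0 N) atTop (𝓝 c)) :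
    c = Complex.exp (Vn n / (2 * Real.pi)) := by
  obtain ⟨-, h2, h3⟩ := base hn
  obtain ⟨c1, c2⟩ := Pool.Agent.R807.Ratio.ratio_real 1 (tendsto_add_atTop_nat 1) (zero_eq n)
    h2 Pool.Agent.R807.Ratio.exp_tendsto (by norm_num) hc
  have c3 := Pool.Agent.R807.Ratio.ratio_lim
    (b := fun k => tN (uA 1) n k) (c := c.re)
    h2 (Pool.Agent.R807.Ratio.all_growth h3) c2
  rw [← c1, c3, Complex.ofReal_exp]
  push_cast
  rfl

/-- `N → ∞` through the odd integers. -/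
def oddTop : Filter ℕ := atTop ⊓ 𝓟 {N | Odd N}

lemma odd_le : oddTop ≤ atTop := inf_le_left

lemma odd_shift : Tendsto (fun N => N + 2) oddTop oddTop := by
  refine tendsto_inf.2 ⟨(tendsto_add_atTop_nat 2).mono_left inf_le_left, ?_⟩
  refine tendsto_inf_right ?_
  refine tendsto_principal_principal.2 fun N hN => ?_
  exact hN.add_even (by decide)

lemma odd_sub : Tendsto (fun k : ℕ => 2 * k + 1) atTop oddTop := by
  refine tendsto_inf.2 ⟨tendsto_atTop_mono (fun k => (by omega : k ≤ 2 * k + 1)) tendsto_id, ?_⟩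
  exact tendsto_principal.2 (Eventually.of_forall fun k => ⟨k, rfl⟩)

instance : NeBot oddTop := odd_sub.neBot

lemma zero_ratio_odd {n : ℕ} (hn : 1 ≤ n) {c : ℂ}
    (hc : Tendsto (fun N => Jx n 0 (N + 2) / Jx n 0 N) oddTop (𝓝 c)) :
    c = Complex.exp (Vn n / Real.pi) := by
  obtain ⟨-, h2, h3⟩ := base hn
  obtain ⟨c1, c2⟩ := Pool.Agent.R807.Ratio.ratio_real 2 odd_shift ((zero_eq n).filter_mono odd_le)
    (h2.filter_mono odd_le) (Pool.Agent.R807.Ratio.exp_tendsto.mono_left odd_le) (by norm_num) hc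
  have c3 := Pool.Agent.R807.Ratio.ratio_lim
    (b := fun k => tN (uA 1) n (2 * k + 1)) (c := c.re)
    (odd_sub.eventually (h2.filter_mono odd_le)) (Pool.Agent.R807.Ratio.odd_growth h3)
    (by
      refine (c2.comp odd_sub).congr fun k => ?_
      rfl)
  rw [← c1, c3, Complex.ofReal_exp]
  push_cast
  rfl

/-! ### the constant -/

/-- the phase -/
noncomputable def th (n : ℕ) (m : ℤ) : ℝ := Real.arctan (√3 * m / n) / 2

lemma Lm_eq (n : ℕ) (m : ℤ) : Lm n m =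
    (((1 + 3 * (m : ℝ) ^ 2 / n ^ 2) ^ (-(1 / 4) : ℝ) : ℝ) : ℂ) *
      Complex.exp (Complex.I * (th n m : ℝ)) := by
  unfold Lm th
  first
    | rfl
    | (congr 2; push_cast; ring)

lemma Lm_pos (n : ℕ) (m : ℤ) : 0 < (1 + 3 * (m : ℝ) ^ 2 / n ^ 2) ^ (-(1 / 4) : ℝ) := by
  positivity

lemma Lm_norm (n : ℕ) (m : ℤ) : ‖Lm n m‖ = (1 + 3 * (m : ℝ) ^ 2 / n ^ 2) ^ (-(1 / 4) : ℝ) := by
  rw [Lm_eq, norm_mul, Complex.norm_real, Real.norm_eq_abs, abs_of_pos (Lm_pos n m),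
    mul_comm Complex.I, Complex.norm_exp_ofReal_mul_I, mul_one]

lemma Lm_phase (n : ℕ) (m : ℤ) : Lm n m / (‖Lm n m‖ : ℝ) = Complex.exp (Complex.I * (th n m : ℝ)) := by
  rw [Lm_norm, Lm_eq]
  have h : (((1 + 3 * (m : ℝ) ^ 2 / n ^ 2) ^ (-(1 / 4) : ℝ) : ℝ) : ℂ) ≠ 0 := by
    exact_mod_cast (Lm_pos n m).ne'
  exact mul_div_cancel_left₀ _ h

lemma th_bd (n : ℕ) (m : ℤ) : -(π / 2) < th n m ∧ th n m < π / 2 := by
  unfold th
  have h1 := Real.neg_pi_div_two_lt_arctan (√3 * m / n)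
  have h2 := Real.arctan_lt_pi_div_two (√3 * m / n)
  have := Real.pi_pos
  constructor <;> linarith

lemma Lm_slit (n : ℕ) (m : ℤ) : Lm n m ∈ Complex.slitPlane := by
  rw [Complex.mem_slitPlane_iff]
  left
  rw [Lm_eq, Complex.re_ofReal_mul, mul_comm Complex.I, Complex.exp_ofReal_mul_I_re]
  have h := th_bd n m
  exact mul_pos (Lm_pos n m) (Real.cos_pos_of_mem_Ioo ⟨h.1, h.2⟩)

/-- **All properties.** -/
theorem facts {n : ℕ} (hn : 1 ≤ n) (m : ℤ) :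
    0 < Vn n ∧
    Tendsto (fun N => Jx n m N / Jx n 0 N) atTop (𝓝 (Lm n m)) ∧
    (∀ᶠ N in atTop, Jx n m N ≠ 0) ∧
    Tendsto (fun N => Jx n m N / (‖Jx n m N‖ : ℝ)) atTop
      (𝓝 (-Complex.exp (Complex.I * (th n m : ℝ)))) ∧
    Tendsto (fun N => Jx n m (N + 1) / Jx n m N / (‖Jx n m (N + 1) / Jx n m N‖ : ℝ)) atTop (𝓝 1) ∧
    Tendsto (fun N : ℕ => 2 * Real.pi * (Real.log ‖Jx n m N‖ / N)) atTop (𝓝 (Vn n)) ∧
    (∃ l : ℕ → ℂ, (∀ᶠ N in atTop, Complex.exp (l N) = Jx n m N) ∧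
      Tendsto (fun N : ℕ => 2 * (Real.pi : ℂ) / N * l N) atTop (𝓝 (Vn n : ℂ))) ∧
    (∀ c : ℂ, Tendsto (fun N => Jx n m (N + 1) / Jx n m N) atTop (𝓝 c) →
      c = Complex.exp (Vn n / (2 * Real.pi))) ∧
    (∀ c : ℂ, Tendsto (fun N => Jx n m (N + 2) / Jx n m N) oddTop (𝓝 c) →
      c = Complex.exp (Vn n / Real.pi)) ∧
    Tendsto (fun N => Jx n m (N + 2) / Jx n m N / (‖Jx n m (N + 2) / Jx n m N‖ : ℝ)) oddTop (𝓝 1) := by
  have : NeZero n := ⟨by omega⟩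
  have hq := ratio_lim n m
  have hL := Lm_ne n m
  have h0 := zero_ne hn
  have hph := tra_phase hL hq h0 (zero_phase hn)
  rw [Lm_phase, mul_neg, mul_one] at hph
  have hu : -Complex.exp (Complex.I * (th n m : ℝ)) ≠ 0 := neg_ne_zero.2 (Complex.exp_ne_zero _)
  refine ⟨(base hn).1, hq, tra_ne hL hq, hph, phase_of hu 1 (tendsto_add_atTop_nat 1) hph,
    tra_growth hL hq h0 (zero_growth hn), tra_log (Lm_slit n m) hq h0 (zero_log hn), ?_, ?_,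
    phase_of hu 2 odd_shift (hph.mono_left odd_le)⟩
  · intro c hc
    exact zero_ratio hn ((tra_ratio hL hq h0 1 (tendsto_add_atTop_nat 1)).1 hc)
  · intro c hc
    exact zero_ratio_odd hn ((tra_ratio hL (hq.mono_left odd_le) (h0.filter_mono odd_le) 2
      odd_shift).1 hc)

end Run7.h116.VX
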