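import Pool.Agent.W711.HT.Defs

/-!
# A Gaussian sum
-/

set_option autoImplicit false

namespace Run7.h116.VX

open Filter Topology Metric Set MeasureTheory Pool.Agent.W711.HT
open scoped Real

/-- the second order expansion at the origin -/
def Sec (X : ℕ → ℂ → ℂ) (c : ℝ) : Prop := ∀ ε : ℝ, 0 < ε → ∃ r : ℝ, 0 < r ∧ ∀ᶠ N : ℕ in atTop,
  X N 0 ≠ 0 ∧ ∀ x : ℝ, |x| < r → ∃ η : ℂ,
    ‖η‖ ≤ ε * x ^ 2 ∧ X N x = X N 0 * Complex.exp (N * (-(c / 2) * x ^ 2 + η))

/-- integral of a step function -/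
lemma step_integral (s : ℝ) (hs : 0 < s) (P : ℕ) (F : ℤ → ℂ) :
    ∫ t : ℝ, (if |⌊t * s⌋| ≤ (P : ℤ) then F ⌊t * s⌋ else 0) =
      (∑ q ∈ Finset.Icc (-(P : ℤ)) P, F q) / s := by
  have e : (fun t : ℝ => if |⌊t * s⌋| ≤ (P : ℤ) then F ⌊t * s⌋ else 0) =
      fun t => ∑ q ∈ Finset.Icc (-(P : ℤ)) P, (Ico ((q : ℝ) / s) ((q + 1) / s)).indicator
        (fun _ => F q) t := by
    funext t
    have hmem : ∀ q : ℤ, t ∈ Ico ((q : ℝ) / s) ((q + 1) / s) ↔ ⌊t * s⌋ = q := by
      intro q
      rw [Int.floor_eq_iff, mem_Ico, div_le_iff₀ hs, lt_div_iff₀ hs]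
    split_ifs with h
    · rw [Finset.sum_eq_single ⌊t * s⌋]
      · rw [indicator_of_mem ((hmem _).2 rfl)]
      · intro q _ hq
        rw [indicator_of_notMem]
        intro h1
        exact hq ((hmem q).1 h1).symm
      · intro h1
        exact absurd (Finset.mem_Icc.2 (abs_le.1 h)) h1
    · symm
      refine Finset.sum_eq_zero fun q hq => ?_
      rw [indicator_of_notMem]
      intro h1
      apply h
      rw [(hmem q).1 h1, abs_le]
      exact Finset.mem_Icc.1 hq
  rw [e, integral_finsetSum]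
  · rw [Finset.sum_div]
    refine Finset.sum_congr rfl fun q _ => ?_
    rw [integral_indicator_const _ measurableSet_Ico, Real.volume_real_Ico_of_le (by gcongr; linarith)]
    have : ((q : ℝ) + 1) / s - q / s = 1 / s := by ring
    rw [this, Complex.real_smul]
    push_cast
    ring
  · intro q _
    rw [integrable_indicator_iff measurableSet_Ico]
    exact integrableOn_const (by simp)

/-- the exponent -/
lemma Ea_real (a : ℤ) (N : ℕ) (hN : 0 < N) (q : ℤ) : Ea a N ((2 * π * q / N : ℝ) : ℂ) =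
    Complex.exp (Complex.I * a * π * ((q : ℝ) / √N : ℝ) ^ 2) := by
  have hNC : (N : ℂ) ≠ 0 := by exact_mod_cast hN.ne'
  have hs : ((√N : ℝ) : ℂ) ^ 2 = N := by
    rw [← Complex.ofReal_pow, Real.sq_sqrt (Nat.cast_nonneg N)]
    simp
  have hpi : (π : ℂ) ≠ 0 := by exact_mod_cast Real.pi_pos.ne'
  unfold Ea
  congr 1
  push_cast
  rw [div_pow, div_pow, hs]
  field_simp
  ring

/-- **The Gaussian sum.** -/
theorem gauss {X : ℕ → ℂ → ℂ} {c : ℝ} (hc : 0 < c) (h : Sec X c) : ∃ r₀ : ℝ, 0 < r₀ ∧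
    ∀ r : ℝ, 0 < r → r ≤ r₀ → ∀ a : ℤ, Tendsto (fun N : ℕ =>
      (∑ q ∈ Finset.Icc (-(⌊r * N / (2 * π)⌋₊ : ℤ)) ⌊r * N / (2 * π)⌋₊,
        Ea a N ((2 * π * q / N : ℝ) : ℂ) * X N ((2 * π * q / N : ℝ) : ℂ)) / (√N * X N 0))
      atTop (𝓝 ((1 / (2 * π * c - Complex.I * a)) ^ (1 / 2 : ℂ))) := by
  have hpi := Real.pi_pos
  obtain ⟨r₁, hr₁, h1⟩ := h (c / 4) (by positivity)
  refine ⟨r₁ / 2, by positivity, fun r hr hrr a => ?_⟩
  set τ : ℂ := 2 * π * c - Complex.I * a with hτ
  have hτre : τ.re = 2 * π * c := by simp [hτ]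
  have hπτ : 0 < ((π : ℂ) * τ).re := by
    rw [Complex.re_ofReal_mul, hτre]; positivity
  set P : ℕ → ℕ := fun N => ⌊r * N / (2 * π)⌋₊ with hP
  set F : ℕ → ℤ → ℂ := fun N q =>
    Ea a N ((2 * π * q / N : ℝ) : ℂ) * X N ((2 * π * q / N : ℝ) : ℂ) / X N 0 with hF
  -- the points
  have hx : ∀ N : ℕ, 0 < N → ∀ q : ℤ, (2 * π * q / N : ℝ) ^ 2 * N = 4 * π ^ 2 * ((q : ℝ) / √N) ^ 2 := by
    intro N hN q
    have hN' : (0 : ℝ) < N := by exact_mod_cast hN
    rw [div_pow, div_pow, Real.sq_sqrt hN'.le]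
    field_simp
    ring
  -- the value
  have hval : ∀ (N : ℕ) (q : ℤ) (η : ℂ), 0 < N → X N 0 ≠ 0 →
      X N ((2 * π * q / N : ℝ) : ℂ) = X N 0 * Complex.exp (N * (-(c / 2) * ((2 * π * q / N : ℝ) : ℂ) ^ 2 + η)) →
      F N q = Complex.exp (-(π * τ) * (((q : ℝ) / √N : ℝ) : ℂ) ^ 2) * Complex.exp (N * η) := by
    intro N q η hN h0 hq
    have h2 := hx N hN q
    have h3 : ((2 * π * q / N : ℝ) : ℂ) ^ 2 * N = 4 * π ^ 2 * (((q : ℝ) / √N : ℝ) : ℂ) ^ 2 := by
      exact_mod_cast h2
    rw [hF]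
    simp only
    have e : ∀ A B : ℂ, A * (X N 0 * B) / X N 0 = A * B := fun A B => by field_simp
    rw [Ea_real a N hN q, hq, e, ← Complex.exp_add, ← Complex.exp_add]
    congr 1
    rw [hτ]
    linear_combination (-(c : ℂ) / 2) * h3
  -- the bound
  have hbd : ∀ᶠ N : ℕ in atTop, ∀ q : ℤ, |q| ≤ (P N : ℤ) →
      ‖F N q‖ ≤ Real.exp (-(π ^ 2 * c) * ((q : ℝ) / √N) ^ 2) := by
    filter_upwards [h1, eventually_gt_atTop 0] with N hN hN0 q hq
    have hN' : (0 : ℝ) < N := by exact_mod_cast hN0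
    have hqr : |(q : ℝ)| ≤ r * N / (2 * π) := by
      have h2 : |(q : ℝ)| ≤ (P N : ℝ) := by exact_mod_cast hq
      exact h2.trans (Nat.floor_le (by positivity))
    have hxr : |(2 * π * q / N : ℝ)| < r₁ := by
      rw [abs_div, abs_mul, abs_of_pos (by positivity : (0 : ℝ) < 2 * π), abs_of_pos hN',
        div_lt_iff₀ hN']
      rw [le_div_iff₀ (by positivity)] at hqr
      calc 2 * π * |(q : ℝ)| = |(q : ℝ)| * (2 * π) := by ring
        _ ≤ r * N := hqr
        _ < r₁ * N := by gcongr; linarith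
    obtain ⟨η, he, hX⟩ := hN.2 _ hxr
    rw [hval N q η hN0 hN.1 hX, norm_mul, Complex.norm_exp, Complex.norm_exp, ← Real.exp_add]
    refine Real.exp_le_exp.2 ?_
    have h3 : (-(π * τ) * (((q : ℝ) / √N : ℝ) : ℂ) ^ 2).re = -(2 * π ^ 2 * c) * ((q : ℝ) / √N) ^ 2 := by
      rw [← Complex.ofReal_pow, Complex.re_mul_ofReal, Complex.neg_re, Complex.re_ofReal_mul, hτre]
      ring
    have h4 : (N * η).re ≤ π ^ 2 * c * ((q : ℝ) / √N) ^ 2 := by
      have h5 : (N * η).re ≤ N * ‖η‖ := by
        refine (Complex.re_le_norm _).trans (le_of_eq ?_)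
        rw [norm_mul, Complex.norm_natCast]
      refine h5.trans ((mul_le_mul_of_nonneg_left he hN'.le).trans (le_of_eq ?_))
      linear_combination (c / 4) * hx N hN0 q
    rw [h3]
    linarith
  -- the step functions
  set f : ℕ → ℝ → ℂ := fun N t => if |⌊t * √N⌋| ≤ (P N : ℤ) then F N ⌊t * √N⌋ else 0 with hf
  have hfint : ∀ᶠ N : ℕ in atTop, ∫ t, f N t =
      (∑ q ∈ Finset.Icc (-(⌊r * N / (2 * π)⌋₊ : ℤ)) ⌊r * N / (2 * π)⌋₊,
        Ea a N ((2 * π * q / N : ℝ) : ℂ) * X N ((2 * π * q / N : ℝ) : ℂ)) / (√N * X N 0) := by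
    filter_upwards [eventually_gt_atTop 0] with N hN0
    have hN' : (0 : ℝ) < √N := Real.sqrt_pos.2 (by exact_mod_cast hN0)
    rw [hf]
    simp only
    rw [step_integral (√N) hN' (P N) (F N), hF]
    simp only
    rw [← Finset.sum_div, div_div, mul_comm (X N 0)]
  -- closeness of the points
  have hu : ∀ (t : ℝ) (N : ℕ), 0 < N → |(⌊t * √N⌋ : ℝ) / √N - t| ≤ 1 / √N := by
    intro t N hN0
    have hN' : (0 : ℝ) < √N := Real.sqrt_pos.2 (by exact_mod_cast hN0)
    have e : (⌊t * √N⌋ : ℝ) / √N - t = ((⌊t * √N⌋ : ℝ) - t * √N) / √N := by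
      field_simp
    rw [e, abs_div, abs_of_pos hN']
    gcongr
    rw [abs_le]
    have h2 := Int.floor_le (t * √N)
    have h3 := Int.lt_floor_add_one (t * √N)
    constructor <;> linarith
  set κ : ℝ := π ^ 2 * c with hκ
  have hκ0 : 0 < κ := by positivity
  -- dominated convergence
  have hlim : Tendsto (fun N : ℕ => ∫ t, f N t) atTop
      (𝓝 (∫ t : ℝ, Complex.exp (-(π * τ) * (t : ℂ) ^ 2))) := by
    refine tendsto_integral_filter_of_dominated_convergence
      (fun t => Real.exp κ * Real.exp (-(κ / 2) * t ^ 2)) ?_ ?_ ?_ ?_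
    · refine Eventually.of_forall fun N => ?_
      refine Measurable.aestronglyMeasurable ?_
      have h2 : Measurable fun t : ℝ => ⌊t * √N⌋ := Int.measurable_floor.comp (by fun_prop)
      exact (measurable_from_top (f := fun q : ℤ => if |q| ≤ (P N : ℤ) then F N q else 0)).comp h2
    · filter_upwards [hbd, eventually_gt_atTop 0] with N hN hN0
      refine Eventually.of_forall fun t => ?_
      have hN' : (0 : ℝ) < √N := Real.sqrt_pos.2 (by exact_mod_cast hN0)
      have hN1 : 1 / √(N : ℝ) ≤ 1 := by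
        rw [div_le_one hN', Real.one_le_sqrt]
        exact_mod_cast hN0
      rw [hf]
      simp only
      split_ifs with h2
      · refine (hN _ h2).trans ?_
        rw [← Real.exp_add]
        refine Real.exp_le_exp.2 ?_
        set u : ℝ := (⌊t * √N⌋ : ℝ) / √N with hu'
        have h3 := (hu t N hN0).trans hN1
        rw [← hu'] at h3
        have h4 : t ^ 2 ≤ 2 * u ^ 2 + 2 := by
          have h5 := abs_le.1 h3
          nlinarith [sq_nonneg (u + t), sq_nonneg (2 * u - t), mul_self_nonneg (u - t),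
            mul_nonneg (by linarith [h5.1] : (0 : ℝ) ≤ 1 + (u - t)) (by linarith [h5.2] : (0 : ℝ) ≤ 1 - (u - t))]
        nlinarith
      · rw [norm_zero]
        positivity
    · exact (integrable_exp_neg_mul_sq (by positivity)).const_mul _
    · refine Eventually.of_forall fun t => ?_
      -- the points converge
      have hut : Tendsto (fun N : ℕ => (⌊t * √N⌋ : ℝ) / √N) atTop (𝓝 t) := by
        rw [tendsto_iff_norm_sub_tendsto_zero]
        have h2 : Tendsto (fun N : ℕ => 1 / √(N : ℝ)) atTop (𝓝 0) := by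
          have := (Real.tendsto_sqrt_atTop.comp tendsto_natCast_atTop_atTop).inv_tendsto_atTop
          refine this.congr fun N => ?_
          simp
        refine squeeze_zero' (Eventually.of_forall fun N => norm_nonneg _) ?_ h2
        filter_upwards [eventually_gt_atTop 0] with N hN0
        exact hu t N hN0
      have hE : Tendsto (fun N : ℕ => Complex.exp (-(π * τ) * (((⌊t * √N⌋ : ℝ) / √N : ℝ) : ℂ) ^ 2)) atTop
          (𝓝 (Complex.exp (-(π * τ) * (t : ℂ) ^ 2))) := by
        have h2 : Continuous fun u : ℝ => Complex.exp (-(π * τ) * (u : ℂ) ^ 2) := by fun_prop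
        exact (h2.tendsto t).comp hut
      have hB : ∀ᶠ N : ℕ in atTop, |(⌊t * √N⌋ : ℝ) / √N| ≤ |t| + 1 := by
        have h2 := (continuous_abs.tendsto t).comp hut
        filter_upwards [h2.eventually (gt_mem_nhds (show |t| < |t| + 1 by linarith))] with N hN
        exact hN.le
      -- eventually in the window
      have hwin : ∀ δ : ℝ, 0 < δ → ∀ᶠ N : ℕ in atTop, |(⌊t * √N⌋ : ℝ)| ≤ δ * N := by
        intro δ hδ
        have h2 : Tendsto (fun N : ℕ => √(N : ℝ)) atTop atTop :=
          Real.tendsto_sqrt_atTop.comp tendsto_natCast_atTop_atTop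
        filter_upwards [hB, h2.eventually (eventually_ge_atTop ((|t| + 1) / δ)),
          eventually_gt_atTop 0] with N h3 h4 hN0
        have hN' : (0 : ℝ) < √N := Real.sqrt_pos.2 (by exact_mod_cast hN0)
        have hNs : √(N : ℝ) * √N = N := Real.mul_self_sqrt (Nat.cast_nonneg N)
        rw [abs_div, abs_of_pos hN', div_le_iff₀ hN'] at h3
        rw [div_le_iff₀ hδ] at h4
        calc |(⌊t * √N⌋ : ℝ)| ≤ (|t| + 1) * √N := h3
          _ ≤ √N * δ * √N := by gcongr
          _ = δ * N := by rw [mul_right_comm, hNs, mul_comm]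
      have hPw : ∀ᶠ N : ℕ in atTop, |⌊t * √N⌋| ≤ (P N : ℤ) := by
        filter_upwards [hwin (r / (4 * π)) (by positivity),
          (tendsto_natCast_atTop_atTop (R := ℝ)).eventually (eventually_ge_atTop (4 * π / r))] with N h2 h3
        have h4 : r * N / (2 * π) < (P N : ℝ) + 1 := Nat.lt_floor_add_one _
        have h5 : 1 ≤ r * N / (4 * π) := by
          rw [le_div_iff₀ (by positivity)]
          rw [div_le_iff₀ hr] at h3
          linarith
        have h6 : |(⌊t * √N⌋ : ℝ)| < (P N : ℝ) := by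
          have e : r * N / (2 * π) = r / (4 * π) * N + r * N / (4 * π) := by
            field_simp
            ring
          rw [e] at h4
          linarith
        have h7 : ((|⌊t * √N⌋| : ℤ) : ℝ) < ((P N : ℤ) : ℝ) := by
          push_cast
          exact h6
        exact (Int.cast_lt.1 h7).le
      -- the ratio tends to 1
      have hq : Tendsto (fun N : ℕ => f N t / Complex.exp (-(π * τ) * (((⌊t * √N⌋ : ℝ) / √N : ℝ) : ℂ) ^ 2))
          atTop (𝓝 1) := by
        rw [Metric.tendsto_nhds]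
        intro δ hδ
        set K : ℝ := 4 * π ^ 2 * (|t| + 1) ^ 2 with hK
        have hK0 : 0 < K := by positivity
        set ε : ℝ := min (δ / (4 * K)) (1 / K) with hε
        have hε0 : 0 < ε := by positivity
        obtain ⟨r₂, hr₂, h2⟩ := h ε hε0
        filter_upwards [h2, hwin (r₂ / (4 * π)) (by positivity), hPw, hB, eventually_gt_atTop 0]
          with N hN hw hp hb hN0
        have hN' : (0 : ℝ) < N := by exact_mod_cast hN0
        set q : ℤ := ⌊t * √N⌋ with hqd
        have hxr : |(2 * π * q / N : ℝ)| < r₂ := by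
          rw [abs_div, abs_mul, abs_of_pos (by positivity : (0 : ℝ) < 2 * π), abs_of_pos hN',
            div_lt_iff₀ hN']
          calc 2 * π * |(q : ℝ)| ≤ 2 * π * (r₂ / (4 * π) * N) := by gcongr
            _ = r₂ * N / 2 := by field_simp; ring
            _ < r₂ * N := by have : 0 < r₂ * N := by positivity
                             linarith
        obtain ⟨η, he, hX⟩ := hN.2 _ hxr
        have hfv : f N t = F N q := by
          rw [hf]
          simp only
          rw [if_pos hp]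
        rw [hfv, hval N q η hN0 hN.1 hX, mul_div_cancel_left₀ _ (Complex.exp_ne_zero _), dist_eq_norm]
        have h5 : ‖(N : ℂ) * η‖ ≤ ε * K := by
          rw [norm_mul, Complex.norm_natCast]
          have h6 : (N : ℝ) * ‖η‖ ≤ N * (ε * (2 * π * q / N : ℝ) ^ 2) := by gcongr
          refine h6.trans ?_
          have e : (N : ℝ) * (ε * (2 * π * q / N : ℝ) ^ 2) = ε * (4 * π ^ 2 * ((q : ℝ) / √N) ^ 2) := by
            linear_combination ε * hx N hN0 q
          rw [e, hK]
          have h7 : ((q : ℝ) / √N) ^ 2 ≤ (|t| + 1) ^ 2 := by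
            rw [← sq_abs]
            gcongr
          gcongr
        have h6 : ε * K ≤ 1 := by
          have : ε ≤ 1 / K := min_le_right _ _
          calc ε * K ≤ 1 / K * K := by gcongr
            _ = 1 := by field_simp
        have h7 : ε * K ≤ δ / 4 := by
          have : ε ≤ δ / (4 * K) := min_le_left _ _
          calc ε * K ≤ δ / (4 * K) * K := by gcongr
            _ = δ / 4 := by field_simp
        have h8 := Complex.norm_exp_sub_one_le (h5.trans h6)
        linarith
      have hprod := hq.mul hE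
      rw [one_mul] at hprod
      refine hprod.congr fun N => ?_
      exact div_mul_cancel₀ _ (Complex.exp_ne_zero _)
  rw [integral_gaussian_complex hπτ] at hlim
  have e : (π : ℂ) / (π * τ) = 1 / τ := by
    have hpiC : (π : ℂ) ≠ 0 := by exact_mod_cast hpi.ne'
    rw [div_mul_eq_div_div, div_self hpiC]
  rw [e] at hlim
  exact hlim.congr' hfint

end Run7.h116.VX
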