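import Pool.Agent.W930.HT.Log
import Mathlib.Analysis.Complex.LocallyUniformLimit

/-!
# The second order expansion at the origin
-/

set_option autoImplicit false

namespace Run7.h116.VX

open Filter Topology Metric Set Pool.Agent.W711.HT
open scoped Real

/-- a small second derivative gives a small function -/
lemma two_mean {h : ℂ → ℂ} {r ε : ℝ} (hd : DifferentiableOn ℂ h (ball 0 r))
    (h0 : h 0 = 0) (h1 : deriv h 0 = 0) (hε : 0 ≤ ε)
    (h2 : ∀ z ∈ ball (0 : ℂ) r, ‖deriv (deriv h) z‖ ≤ ε) :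
    ∀ z ∈ ball (0 : ℂ) r, ‖h z‖ ≤ ε * ‖z‖ ^ 2 := by
  have hd1 : DifferentiableOn ℂ (deriv h) (ball 0 r) := hd.deriv isOpen_ball
  have hm1 : ∀ z ∈ ball (0 : ℂ) r, ‖deriv h z‖ ≤ ε * ‖z‖ := by
    intro z hz
    have hr : (0 : ℂ) ∈ ball (0 : ℂ) r := mem_ball_self ((norm_nonneg z).trans_lt (by simpa using hz))
    have := Convex.norm_image_sub_le_of_norm_deriv_le (f := deriv h) (s := ball (0 : ℂ) r) (x := 0)
      (y := z) (C := ε) (fun w hw => hd1.differentiableAt (isOpen_ball.mem_nhds hw)) h2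
      (convex_ball 0 r) hr hz
    simpa [h1] using this
  intro z hz
  have hzr : ‖z‖ < r := by simpa using hz
  have hsub : ∀ w ∈ closedBall (0 : ℂ) ‖z‖, w ∈ ball (0 : ℂ) r := by
    intro w hw
    rw [mem_closedBall_zero_iff] at hw
    rw [mem_ball_zero_iff]
    exact hw.trans_lt hzr
  have := Convex.norm_image_sub_le_of_norm_deriv_le (f := h) (s := closedBall (0 : ℂ) ‖z‖) (x := 0)
    (y := z) (C := ε * ‖z‖) (fun w hw => hd.differentiableAt (isOpen_ball.mem_nhds (hsub w hw)))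
    (fun w hw => (hm1 w (hsub w hw)).trans (by
      have := mem_closedBall_zero_iff.1 hw
      gcongr))
    (convex_closedBall 0 _) (mem_closedBall_self (norm_nonneg z)) (by simp)
  rw [h0, sub_zero, sub_zero] at this
  calc ‖h z‖ ≤ ε * ‖z‖ * ‖z‖ := this
    _ = ε * ‖z‖ ^ 2 := by ring

/-- **Second order expansion.** -/
theorem second {X : ℕ → ℂ → ℂ} {G : ℂ → ℂ} {R c : ℝ} (hR : 0 < R)
    (hX : ∀ N, Differentiable ℂ (X N)) (he : ∀ N z, X N (-z) = X N z)
    (hG : DifferentiableOn ℂ G (Rc R R)) (hMW : MW X G (Rc R R))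
    (hG2 : deriv (deriv G) 0 = -(c : ℂ)) {ε : ℝ} (hε : 0 < ε) :
    ∃ r : ℝ, 0 < r ∧ ∀ᶠ N : ℕ in atTop, X N 0 ≠ 0 ∧ ∀ x : ℝ, |x| < r → ∃ η : ℂ,
      ‖η‖ ≤ ε * x ^ 2 ∧ X N x = X N 0 * Complex.exp (N * (-(c / 2) * x ^ 2 + η)) := by
  -- the rectangle contains a ball
  have hsub : ball (0 : ℂ) R ⊆ Rc R R := by
    intro z hz
    rw [mem_ball_zero_iff] at hz
    exact ⟨(Complex.abs_re_le_norm z).trans_lt hz, (Complex.abs_im_le_norm z).trans_lt hz⟩
  have hMW' : MW X G (ball 0 R) := fun δ hδ => by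
    filter_upwards [hMW δ hδ] with N hN z hz
    exact hN z (hsub hz)
  have hcl : closedBall (0 : ℂ) (R / 2) ⊆ ball 0 R := closedBall_subset_ball (by linarith)
  obtain ⟨g, cN, hc, hgp, hgu⟩ := Pool.Agent.W930.HTLog.main X G (ball 0 R) (closedBall 0 (R / 2))
    isOpen_ball (convex_ball 0 R) (Eventually.of_forall fun N => (hX N).differentiableOn)
    (hG.mono hsub) hMW' (isCompact_closedBall 0 _) hcl
  -- second derivatives
  have hO : IsOpen (ball (0 : ℂ) (R / 2)) := isOpen_ball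
  have hl0 : TendstoLocallyUniformlyOn g G atTop (ball 0 (R / 2)) :=
    (hgu.mono ball_subset_closedBall).tendstoLocallyUniformlyOn
  have hgd : ∀ᶠ N : ℕ in atTop, DifferentiableOn ℂ (g N) (ball 0 (R / 2)) := by
    filter_upwards [hgp] with N hN
    exact hN.1.mono (ball_subset_ball (by linarith))
  have hl1 := hl0.deriv hgd hO
  have hgd1 : ∀ᶠ N : ℕ in atTop, DifferentiableOn ℂ ((deriv ∘ g) N) (ball 0 (R / 2)) := by
    filter_upwards [hgd] with N hN
    exact hN.deriv hO
  have hl2 := hl1.deriv hgd1 hO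
  have h0m : (0 : ℂ) ∈ ball (0 : ℂ) (R / 2) := mem_ball_self (by positivity)
  obtain ⟨t, ht, hN2⟩ := Metric.tendstoLocallyUniformlyOn_iff.1 hl2 (ε / 2) (by positivity) 0 h0m
  have hGa : ContinuousAt (deriv (deriv G)) 0 := by
    have hGd : DifferentiableOn ℂ G (ball 0 (R / 2)) :=
      (hG.mono hsub).mono (ball_subset_ball (by linarith))
    exact ((hGd.deriv hO).deriv hO).continuousOn.continuousAt (hO.mem_nhds h0m)
  have hG3 : ∀ᶠ z : ℂ in 𝓝 0, ‖deriv (deriv G) z + c‖ < ε / 2 := by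
    have := Metric.tendsto_nhds.1 hGa.tendsto (ε / 2) (by positivity)
    filter_upwards [this] with z hz
    rw [dist_eq_norm, hG2, sub_neg_eq_add] at hz
    exact hz
  have ht' : t ∈ 𝓝 (0 : ℂ) := by rwa [hO.nhdsWithin_eq h0m] at ht
  obtain ⟨r, hr, hball⟩ := Metric.mem_nhds_iff.1
    (inter_mem (inter_mem ht' hG3) (hO.mem_nhds h0m))
  refine ⟨r, hr, ?_⟩
  filter_upwards [hN2, hgp, eventually_ge_atTop 1] with N h2 hg hN1
  have hN0 : (N : ℂ) ≠ 0 := by exact_mod_cast (by omega : N ≠ 0)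
  have hrsub : ball (0 : ℂ) r ⊆ ball 0 (R / 2) := fun z hz => (hball hz).2
  have hrR : ball (0 : ℂ) (R / 2) ⊆ ball 0 R := ball_subset_ball (by linarith)
  have h0R : (0 : ℂ) ∈ ball (0 : ℂ) R := mem_ball_self hR
  have hX0 := hg.2 0 h0R
  have hcn : cN N ≠ 0 := by
    intro h
    have := hc N
    rw [h, norm_zero] at this
    norm_num at this
  have hX0n : X N 0 ≠ 0 := by
    rw [hX0]
    exact mul_ne_zero hcn (Complex.exp_ne_zero _)
  refine ⟨hX0n, ?_⟩
  -- first derivative at the origin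
  have hX1 : deriv (X N) 0 = 0 := by
    have h1 : deriv (fun z => X N (-z)) 0 = -deriv (X N) 0 := by
      rw [deriv_comp_neg, neg_zero]
    have h2 : (fun z => X N (-z)) = X N := funext fun z => he N z
    rw [h2] at h1
    have h3 : (2 : ℂ) * deriv (X N) 0 = 0 := by linear_combination h1
    simpa using h3
  have hgN : DifferentiableOn ℂ (g N) (ball 0 (R / 2)) := hg.1.mono hrR
  have hg0 : HasDerivAt (g N) (deriv (g N) 0) 0 :=
    (hgN.differentiableAt (hO.mem_nhds h0m)).hasDerivAt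
  have hg1 : deriv (g N) 0 = 0 := by
    have h1 : HasDerivAt (fun z => cN N * Complex.exp (N * g N z))
        (cN N * (Complex.exp (N * g N 0) * (N * deriv (g N) 0))) 0 :=
      ((hg0.const_mul (N : ℂ)).cexp).const_mul _
    have h2 : X N =ᶠ[𝓝 0] fun z => cN N * Complex.exp (N * g N z) := by
      filter_upwards [isOpen_ball.mem_nhds h0R] with z hz
      exact hg.2 z hz
    have h3 := (h1.congr_of_eventuallyEq h2).deriv
    rw [hX1] at h3
    rcases mul_eq_zero.1 h3.symm with h4 | h4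
    · exact absurd h4 hcn
    · rcases mul_eq_zero.1 h4 with h5 | h5
      · exact absurd h5 (Complex.exp_ne_zero _)
      · exact (mul_eq_zero.1 h5).resolve_left hN0
  -- the remainder
  set h : ℂ → ℂ := fun z => g N z - g N 0 + c / 2 * z ^ 2 with hh
  have hdh : DifferentiableOn ℂ h (ball 0 r) := by
    refine ((hgN.mono hrsub).sub_const _).add ?_
    fun_prop
  have hder : ∀ z ∈ ball (0 : ℂ) (R / 2), deriv h z = deriv (g N) z + c * z := by
    intro z hz
    have h1 : HasDerivAt (g N) (deriv (g N) z) z :=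
      (hgN.differentiableAt (hO.mem_nhds hz)).hasDerivAt
    have h2 : HasDerivAt (fun z : ℂ => (c : ℂ) / 2 * z ^ 2) (c * z) z := by
      have := ((hasDerivAt_id z).pow 2).const_mul ((c : ℂ) / 2)
      refine this.congr_deriv ?_
      simp
      ring
    exact ((h1.sub_const (g N 0)).add h2).deriv
  have hder2 : ∀ z ∈ ball (0 : ℂ) r, deriv (deriv h) z = deriv (deriv (g N)) z + c := by
    intro z hz
    have hz' := hrsub hz
    have e : deriv h =ᶠ[𝓝 z] fun z => deriv (g N) z + c * z := by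
      filter_upwards [hO.mem_nhds hz'] with w hw
      exact hder w hw
    rw [e.deriv_eq]
    have h1 : HasDerivAt (deriv (g N)) (deriv (deriv (g N)) z) z :=
      ((hgN.deriv hO).differentiableAt (hO.mem_nhds hz')).hasDerivAt
    have h2 : HasDerivAt (fun z : ℂ => (c : ℂ) * z) c z := by
      simpa using (hasDerivAt_id z).const_mul (c : ℂ)
    exact (h1.add h2).deriv
  have hbd : ∀ z ∈ ball (0 : ℂ) r, ‖deriv (deriv h) z‖ ≤ ε := by
    intro z hz
    rw [hder2 z hz]
    have h3 := h2 z (hball hz).1.1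
    have h4 : ‖deriv (deriv G) z + c‖ < ε / 2 := (hball hz).1.2
    rw [dist_comm, dist_eq_norm] at h3
    have e : deriv (deriv (g N)) z + c = ((deriv ∘ deriv ∘ g) N z - deriv (deriv G) z) +
        (deriv (deriv G) z + c) := by
      show _ = (deriv (deriv (g N)) z - _) + _
      ring
    rw [e]
    refine (norm_add_le _ _).trans ?_
    linarith
  have key := two_mean hdh (by simp [hh]) (by rw [hder 0 h0m, hg1]; simp) hε.le hbd
  intro x hx
  have hxb : (x : ℂ) ∈ ball (0 : ℂ) r := by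
    rw [mem_ball_zero_iff, Complex.norm_real]
    exact hx
  refine ⟨h x, ?_, ?_⟩
  · have := key x hxb
    rw [Complex.norm_real, Real.norm_eq_abs, sq_abs] at this
    exact this
  · rw [hX0, hg.2 x (hrR (hrsub hxb)), mul_assoc, ← Complex.exp_add]
    congr 2
    rw [hh]
    simp only
    ring

end Run7.h116.VX
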