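import Pool.Agent.Run7.h116.VX.Lim
import Pool.Agent.Run7.h116.VX.Two
import Pool.Agent.Run7.h116.VX.Gs
import Pool.Agent.Run7.h260.VC.F5
import Pool.Agent.W715.VC.Axis

/-!
# The asymptotics of the traces of the words `Δ^{2m} (s_1 s_2^{-1})^n`
-/

set_option autoImplicit false

namespace Run7.h116.VX

open Finset Filter Topology Pool.Agent.H550R3.Jones Pool.Agent.W711.HT Pool.Agent.Y472
open Pool.Agent.Y833.CB (rp sum_near Tf_congr Tf_diff)
open Run7.h260.VC
open GapVol (lob)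
open scoped Real

/-- minus the second derivative of the potential -/
noncomputable def cn (n : ℕ) : ℝ := n / (π * √3)

lemma cn_pos (n : ℕ) [NeZero n] : 0 < cn n := by
  have hnn : (0 : ℝ) < n := by exact_mod_cast Nat.pos_of_ne_zero (NeZero.ne n)
  have := Real.pi_pos
  unfold cn
  positivity

theorem sec_wd (n : ℕ) [NeZero n] : Sec (fun N => Tf N (wd n)) (cn n) := by
  obtain ⟨R, c, B, hR, hR1, hc, hGd, hGe, hGb, hMW, han⟩ := exists_R n
  intro ε hε
  refine second hR (fun N => Tf_diff N _) (fun N z => Tf_congr N _ (Complex.cos_neg z)) hGd hMW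
    ?_ hε
  rw [Gv_deriv2]
  unfold cn
  push_cast
  ring

/-- the value at the origin -/
lemma mw_zero (n : ℕ) [NeZero n] {ε : ℝ} (hε : 0 < ε) : ∀ᶠ N : ℕ in atTop,
    Tf N (wd n) 0 ≠ 0 ∧ Real.exp (N * (G0 n - ε)) ≤ ‖Tf N (wd n) 0‖ := by
  obtain ⟨R, c, B, hR, hR1, hc, hGd, hGe, hGb, hMW, han⟩ := exists_R n
  filter_upwards [hMW ε hε] with N hN
  obtain ⟨h1, h2⟩ := hN 0 ⟨by simpa using hR, by simpa using hR⟩
  refine ⟨h1, ?_⟩
  rw [Gv_zero_re] at h2
  have h3 := (abs_le.1 h2).1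
  rw [← Real.le_log_iff_exp_le (norm_pos_iff.2 h1)]
  have h4 : -(ε * N) ≤ Real.log ‖Tf N (wd n) 0‖ - N * G0 n := h3
  linarith

/-- the terms -/
noncomputable def tm (n N : ℕ) (m q : ℤ) : ℂ :=
  Ea (2 * m) N ((2 * π * q / N : ℝ) : ℂ) * Tf N (wd n) ((2 * π * q / N : ℝ) : ℂ)

/-- the sum of the trace formula -/
noncomputable def Sm (n N : ℕ) (m : ℤ) : ℂ :=
  ∑ p ∈ range N, Ea (2 * m) N (2 * π * p / N) * Tf N (wd n) (2 * π * p / N)

lemma Ea_per (m : ℤ) {N : ℕ} (hN : 0 < N) (q : ℤ) :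
    Ea (2 * m) N ((2 * π * (q - N : ℤ) / N : ℝ) : ℂ) = Ea (2 * m) N ((2 * π * q / N : ℝ) : ℂ) := by
  have hNC : (N : ℂ) ≠ 0 := by exact_mod_cast hN.ne'
  have hpi : (π : ℂ) ≠ 0 := by exact_mod_cast Real.pi_pos.ne'
  unfold Ea
  have e : Complex.I * ((2 * m : ℤ) : ℂ) * N * ((2 * π * (q - N : ℤ) / N : ℝ) : ℂ) ^ 2 / (4 * π) =
      Complex.I * ((2 * m : ℤ) : ℂ) * N * ((2 * π * q / N : ℝ) : ℂ) ^ 2 / (4 * π) +
        ((m * (N - 2 * q) : ℤ) : ℂ) * (2 * π * Complex.I) := by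
    push_cast
    field_simp
    ring
  rw [e, Complex.exp_add, Complex.exp_int_mul_two_pi_mul_I, mul_one]

lemma tm_per (n : ℕ) (m : ℤ) {N : ℕ} (hN : 0 < N) (q : ℤ) : tm n N m (q - N) = tm n N m q := by
  have hNC : (N : ℂ) ≠ 0 := by exact_mod_cast hN.ne'
  unfold tm
  rw [Ea_per m hN q]
  congr 1
  refine Tf_congr N _ ?_
  have e : ((2 * π * (q - N : ℤ) / N : ℝ) : ℂ) = ((2 * π * q / N : ℝ) : ℂ) - 2 * π := by
    push_cast
    field_simp
  rw [e, Complex.cos_sub_two_pi]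

lemma Sm_eq (n : ℕ) (m : ℤ) {N : ℕ} (hN : 0 < N) : Sm n N m = ∑ p ∈ range N, tm n N m (rp N p) := by
  refine sum_congr rfl fun p hp => ?_
  have h1 : tm n N m (rp N p) = tm n N m p := by
    unfold rp
    split_ifs
    · rfl
    · exact tm_per n m hN p
  rw [h1]
  unfold tm
  have e : ((2 * π * ((p : ℕ) : ℤ) / N : ℝ) : ℂ) = 2 * π * p / N := by push_cast; rfl
  rw [e]

lemma norm_Ea (a : ℤ) (N : ℕ) (x : ℝ) : ‖Ea a N x‖ = 1 := by
  unfold Ea
  have e : Complex.I * a * N * (x : ℂ) ^ 2 / (4 * π) =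
      ((a * N * x ^ 2 / (4 * π) : ℝ) : ℂ) * Complex.I := by
    push_cast
    ring
  rw [e]
  exact Complex.norm_exp_ofReal_mul_I _

/-- **The asymptotics of the sum.** -/
theorem sum_lim (n : ℕ) [NeZero n] (m : ℤ) :
    Tendsto (fun N : ℕ => Sm n N m / (√N * Tf N (wd n) 0)) atTop
      (𝓝 ((1 / (2 * π * cn n - Complex.I * (2 * m : ℤ))) ^ (1 / 2 : ℂ))) := by
  have hpi := Real.pi_gt_three
  obtain ⟨r₀, hr₀, hg⟩ := gauss (cn_pos n) (sec_wd n)
  set r : ℝ := min r₀ 1 with hr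
  have hr0 : 0 < r := by positivity
  have hr1 : r ≤ 1 := min_le_right _ _
  obtain ⟨κ, τ, hκ, hτ, hfar⟩ := Tf_far (n := n) hCJ hr0
  have hgm := hg r hr0 (min_le_left _ _) (2 * m)
  -- the rest
  have hrest : Tendsto (fun N : ℕ => (Sm n N m -
      ∑ q ∈ Icc (-(⌊r * N / (2 * π)⌋₊ : ℤ)) ⌊r * N / (2 * π)⌋₊, tm n N m q) /
        (√N * Tf N (wd n) 0)) atTop (𝓝 0) := by
    have hz : Tendsto (fun N : ℕ => (N : ℝ) * Real.exp (-(κ / 2) * N)) atTop (𝓝 0) := by
      have h1 := Real.tendsto_pow_mul_exp_neg_atTop_nhds_zero 1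
      have h2 : Tendsto (fun N : ℕ => κ / 2 * (N : ℝ)) atTop atTop :=
        tendsto_natCast_atTop_atTop.const_mul_atTop (by positivity)
      have h3 := (h1.comp h2).const_mul (2 / κ)
      rw [mul_zero] at h3
      refine h3.congr fun N => ?_
      simp only [Function.comp, pow_one]
      field_simp
    refine squeeze_zero_norm' ?_ hz
    filter_upwards [hfar, mw_zero n (half_pos hκ), eventually_gt_atTop 0] with N hf hm0 hN
    obtain ⟨hne, hlo⟩ := hm0
    have hN' : (0 : ℝ) < N := by exact_mod_cast hN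
    set P : ℕ := ⌊r * N / (2 * π)⌋₊ with hP
    have hPle : (P : ℝ) ≤ r * N / (2 * π) := Nat.floor_le (by positivity)
    have hPgt : r * N / (2 * π) < P + 1 := Nat.lt_floor_add_one _
    have hP2 : 2 * P < N := by
      have h1 : (2 * P : ℝ) < N := by
        have h2 : r * N / (2 * π) ≤ N / 6 := by
          rw [div_le_div_iff₀ (by positivity) (by norm_num)]
          nlinarith
        linarith
      exact_mod_cast h1
    rw [Sm_eq n m hN, ← sum_filter_add_sum_filter_not (range N) (fun p => |rp N p| ≤ (P : ℤ)),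
      sum_near N P hP2, add_sub_cancel_left]
    have hterm : ∀ p ∈ (range N).filter (fun p => ¬ |rp N p| ≤ (P : ℤ)),
        ‖tm n N m (rp N p)‖ ≤ Real.exp (N * (G0 n - κ)) := by
      intro p hp
      rw [mem_filter, mem_range] at hp
      obtain ⟨hp1, hp2⟩ := hp
      have hq1 : (P : ℤ) + 1 ≤ |rp N p| := by omega
      have hq2 : 2 * |rp N p| ≤ N := by
        unfold rp
        split_ifs with h
        · rw [abs_of_nonneg (by omega)]; omega
        · rw [abs_of_neg (by omega)]; omega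
      set x : ℝ := 2 * π * (rp N p : ℝ) / N with hx
      have hqr1 : ((P : ℝ) + 1) ≤ |(rp N p : ℝ)| := by exact_mod_cast hq1
      have hqr2 : 2 * |(rp N p : ℝ)| ≤ N := by exact_mod_cast hq2
      have hxa : |x| = 2 * π * |(rp N p : ℝ)| / N := by
        rw [hx, abs_div, abs_mul, abs_of_pos (by positivity : (0 : ℝ) < 2 * π), abs_of_pos hN']
      have hx1 : |x| ≤ π := by
        rw [hxa, div_le_iff₀ hN']
        nlinarith
      have hx2 : r ≤ |x| := by
        rw [hxa, le_div_iff₀ hN']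
        have h6 : r * N / (2 * π) ≤ |(rp N p : ℝ)| := by linarith
        rw [div_le_iff₀ (by positivity)] at h6
        linarith
      show ‖Ea (2 * m) N (x : ℂ) * Tf N (wd n) (x : ℂ)‖ ≤ _
      rw [norm_mul, norm_Ea, one_mul]
      refine hf x ?_ ?_ ?_
      · rwa [Complex.ofReal_re]
      · rw [Complex.ofReal_im, abs_zero]; exact hτ.le
      · rwa [Complex.ofReal_re]
    have hcard : (((range N).filter (fun p => ¬ |rp N p| ≤ (P : ℤ))).card : ℝ) ≤ N := by
      have := card_filter_le (range N) (fun p => ¬ |rp N p| ≤ (P : ℤ))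
      rw [card_range] at this
      exact_mod_cast this
    have hsum : ‖∑ p ∈ (range N).filter (fun p => ¬ |rp N p| ≤ (P : ℤ)), tm n N m (rp N p)‖ ≤
        N * Real.exp (N * (G0 n - κ)) := by
      refine (norm_sum_le_of_le _ hterm).trans ?_
      rw [sum_const, nsmul_eq_mul]
      gcongr
    have hsq : (1 : ℝ) ≤ √N := by
      rw [Real.one_le_sqrt]
      exact_mod_cast hN
    have hden : Real.exp (N * (G0 n - κ / 2)) ≤ ‖(√N : ℂ) * Tf N (wd n) 0‖ := by
      rw [norm_mul, Complex.norm_real, Real.norm_eq_abs, abs_of_pos (by linarith)]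
      calc Real.exp (N * (G0 n - κ / 2)) ≤ ‖Tf N (wd n) 0‖ := hlo
        _ = 1 * ‖Tf N (wd n) 0‖ := (one_mul _).symm
        _ ≤ √N * ‖Tf N (wd n) 0‖ := by gcongr
    rw [norm_div]
    have hE := Real.exp_pos (N * (G0 n - κ / 2))
    calc _ ≤ N * Real.exp (N * (G0 n - κ)) / Real.exp (N * (G0 n - κ / 2)) := by gcongr
      _ = N * Real.exp (-(κ / 2) * N) := by
          rw [mul_div_assoc, ← Real.exp_sub]
          congr 2
          ring
  have hadd := hgm.add hrest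
  rw [add_zero] at hadd
  refine hadd.congr fun N => ?_
  rw [← add_div]
  congr 1
  show ∑ q ∈ Icc (-(⌊r * N / (2 * π)⌋₊ : ℤ)) ⌊r * N / (2 * π)⌋₊, tm n N m q + _ = _
  ring

/-- the limit, in closed form -/
noncomputable def Lm (n : ℕ) (m : ℤ) : ℂ :=
  (((1 + 3 * (m : ℝ) ^ 2 / n ^ 2) ^ (-(1 / 4) : ℝ) : ℝ) : ℂ) *
    Complex.exp (Complex.I * ((Real.arctan (√3 * m / n) / 2 : ℝ) : ℂ))

lemma Lm_ne (n : ℕ) (m : ℤ) : Lm n m ≠ 0 := by
  unfold Lm
  refine mul_ne_zero ?_ (Complex.exp_ne_zero _)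
  have : (0 : ℝ) < (1 + 3 * (m : ℝ) ^ 2 / n ^ 2) ^ (-(1 / 4) : ℝ) := by positivity
  exact_mod_cast this.ne'

lemma Lm_zero (n : ℕ) : Lm n 0 = 1 := by
  unfold Lm
  simp

/-- the square root -/
lemma sqrt_eq {x : ℝ} : ((1 : ℂ) / (1 - Complex.I * x)) ^ (1 / 2 : ℂ) =
    (((1 + x ^ 2) ^ (-(1 / 4) : ℝ) : ℝ) : ℂ) * Complex.exp (Complex.I * ((Real.arctan x / 2 : ℝ) : ℂ)) := by
  have hpi := Real.pi_pos
  have hx : (0 : ℝ) < 1 + x ^ 2 := by positivity
  -- polar form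
  have hc := Real.cos_arctan x
  have hs := Real.sin_arctan x
  have hsq : √(1 + x ^ 2) * √(1 + x ^ 2) = 1 + x ^ 2 := Real.mul_self_sqrt hx.le
  have hsp : 0 < √(1 + x ^ 2) := Real.sqrt_pos.2 hx
  have hpolar : (1 : ℂ) / (1 - Complex.I * x) =
      Complex.exp (((-(1 / 2) * Real.log (1 + x ^ 2) : ℝ) : ℂ) + Complex.I * (Real.arctan x : ℝ)) := by
    have hden : (1 : ℂ) - Complex.I * x ≠ 0 := by
      intro h
      have := congrArg Complex.re h
      simp at this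
    rw [Complex.exp_add, mul_comm Complex.I ((Real.arctan x : ℝ) : ℂ), Complex.exp_mul_I, ← Complex.ofReal_exp,
      ← Complex.ofReal_cos, ← Complex.ofReal_sin, hc, hs]
    have he : Real.exp (-(1 / 2) * Real.log (1 + x ^ 2)) = 1 / √(1 + x ^ 2) := by
      have h1 : √(1 + x ^ 2) = Real.exp (1 / 2 * Real.log (1 + x ^ 2)) := by
        rw [Real.sqrt_eq_rpow, Real.rpow_def_of_pos hx]
        congr 1
        ring
      rw [h1, one_div (Real.exp _), ← Real.exp_neg]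
      congr 1
      ring
    rw [he, eq_comm, eq_div_iff hden]
    have hspC : ((√(1 + x ^ 2) : ℝ) : ℂ) ≠ 0 := by exact_mod_cast hsp.ne'
    have hsqC : ((√(1 + x ^ 2) : ℝ) : ℂ) * ((√(1 + x ^ 2) : ℝ) : ℂ) = 1 + (x : ℂ) ^ 2 := by
      exact_mod_cast hsq
    push_cast
    field_simp
    rw [sq, hsqC]
    linear_combination (-(x : ℂ) ^ 2) * Complex.I_sq
  have hexp : (1 + x ^ 2) ^ (-(1 / 4) : ℝ) = Real.exp (-(1 / 4) * Real.log (1 + x ^ 2)) := by
    rw [Real.rpow_def_of_pos hx]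
    congr 1
    ring
  rw [hpolar, Complex.cpow_def_of_ne_zero (Complex.exp_ne_zero _), Complex.log_exp, hexp,
    Complex.ofReal_exp, ← Complex.exp_add]
  · congr 1
    push_cast
    ring
  · simp only [Complex.add_im, Complex.ofReal_im, Complex.mul_im, Complex.I_re, Complex.I_im,
      Complex.ofReal_re, zero_mul, one_mul, zero_add]
    linarith [Real.neg_pi_div_two_lt_arctan x]
  · simp only [Complex.add_im, Complex.ofReal_im, Complex.mul_im, Complex.I_re, Complex.I_im,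
      Complex.ofReal_re, zero_mul, one_mul, zero_add]
    linarith [Real.arctan_lt_pi_div_two x]

/-- the quotient of the limits -/
lemma lim_quot (n : ℕ) [NeZero n] (m : ℤ) :
    (1 / (2 * π * cn n - Complex.I * (2 * m : ℤ))) ^ (1 / 2 : ℂ) =
      (((√3 / (2 * n)) ^ (1 / 2 : ℝ) : ℝ) : ℂ) * Lm n m := by
  have hnn : (0 : ℝ) < n := by exact_mod_cast Nat.pos_of_ne_zero (NeZero.ne n)
  have hpi := Real.pi_pos
  have hnC : (n : ℂ) ≠ 0 := by exact_mod_cast hnn.ne'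
  have hpiC : (π : ℂ) ≠ 0 := by exact_mod_cast hpi.ne'
  have h3 : (0 : ℝ) < √3 := by positivity
  have h3C : ((√3 : ℝ) : ℂ) ≠ 0 := by exact_mod_cast h3.ne'
  have h33 : ((√3 : ℝ) : ℂ) * ((√3 : ℝ) : ℂ) = 3 := by
    rw [← Complex.ofReal_mul, Real.mul_self_sqrt (by norm_num)]
    norm_num
  set x : ℝ := √3 * m / n with hx
  have hden : (1 : ℂ) - Complex.I * x ≠ 0 := by
    intro h
    have := congrArg Complex.re h
    simp at this
  have e1 : (1 : ℂ) / (2 * π * cn n - Complex.I * (2 * m : ℤ)) =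
      ((√3 / (2 * n) : ℝ) : ℂ) * (1 / (1 - Complex.I * x)) := by
    have e2 : (2 * π * cn n - Complex.I * (2 * m : ℤ) : ℂ) = ((2 * n / √3 : ℝ) : ℂ) * (1 - Complex.I * x) := by
      unfold cn
      rw [hx]
      push_cast
      field_simp
    rw [e2]
    push_cast
    field_simp
  have hpos : (0 : ℝ) < √3 / (2 * n) := by positivity
  have hne : (1 : ℂ) / (1 - Complex.I * x) ≠ 0 := one_div_ne_zero hden
  rw [e1, Complex.cpow_def_of_ne_zero (mul_ne_zero (by exact_mod_cast hpos.ne') hne),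
    Complex.log_ofReal_mul hpos hne, add_mul, Complex.exp_add,
    ← Complex.cpow_def_of_ne_zero hne, sqrt_eq]
  have e3 : Complex.exp ((Real.log (√3 / (2 * n)) : ℂ) * (1 / 2)) =
      (((√3 / (2 * n)) ^ (1 / 2 : ℝ) : ℝ) : ℂ) := by
    rw [Real.rpow_def_of_pos hpos]
    push_cast
    rfl
  rw [e3]
  congr 1
  unfold Lm
  have e4 : x ^ 2 = 3 * (m : ℝ) ^ 2 / n ^ 2 := by
    rw [hx, div_pow, mul_pow, Real.sq_sqrt (by norm_num)]
  rw [e4]

open Pool.Agent.W715.VC (axisClosure rt rep3)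

/-- the link invariants -/
noncomputable def Jx (n : ℕ) (m : ℤ) (N : ℕ) : ℂ := cjones N 3 (axisClosure (ftw m ++ bw (wd n))) (rt N)

lemma trace_rep3 (N : ℕ) (w : List (ℕ × Bool)) :
    (rep3 N w).trace = (rep (crossP N (rt N)) (crossN N (rt N)) 3 w).trace := by
  rw [Pool.Agent.W715.VC.rep_rep3, Matrix.trace, Matrix.trace,
    ← Equiv.sum_comp (Pool.Agent.H927R2.J.SanYB.e3 (Fin N))]
  rfl

theorem Jx_eq (n N : ℕ) (hN : 2 ≤ N) : ∃ C : ℂ, ‖C‖ = 1 ∧ ∀ m : ℤ,
    Jx n m N = C * (vN N ^ 4) ^ m * N * Sm n N m := by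
  obtain ⟨C, hC, h⟩ := trace_formula N hN (wd n)
  refine ⟨rt N ^ (-3 * ((N : ℤ) - 1)) * C, ?_, fun m => ?_⟩
  · rw [norm_mul, hC, mul_one]
    exact Pool.Agent.W715.VC.norm_rt_zpow _ _
  · unfold Jx
    rw [Pool.Agent.W715.VC.cjones_axis (by omega), trace_rep3]
    have := h m
    have e : rt N = vN N := rfl
    rw [e, this]
    unfold Sm
    ring

lemma vN_lim (m : ℤ) : Tendsto (fun N : ℕ => (vN N ^ 4) ^ m) atTop (𝓝 1) := by
  have h1 : Tendsto (fun N : ℕ => vN N) atTop (𝓝 1) := by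
    unfold vN
    have h2 : Tendsto (fun N : ℕ => (π : ℂ) * Complex.I / N) atTop (𝓝 0) := by
      exact tendsto_const_div_atTop_nhds_zero_nat _
    have h3 := (Complex.continuous_exp.tendsto 0).comp h2
    rw [Complex.exp_zero] at h3
    exact h3
  have h2 := (h1.pow 4).zpow₀ m (Or.inl (by norm_num))
  simpa using h2

/-- **The quotients of the invariants of the twisted links.** -/
theorem ratio_lim (n : ℕ) [NeZero n] (m : ℤ) :
    Tendsto (fun N : ℕ => Jx n m N / Jx n 0 N) atTop (𝓝 (Lm n m)) := by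
  have hnn : (0 : ℝ) < n := by exact_mod_cast Nat.pos_of_ne_zero (NeZero.ne n)
  have h1 := sum_lim n m
  have h2 := sum_lim n 0
  rw [lim_quot] at h1 h2
  rw [Lm_zero, mul_one] at h2
  have hpos : (0 : ℝ) < (√3 / (2 * n)) ^ (1 / 2 : ℝ) := by positivity
  have hposC : (((√3 / (2 * n)) ^ (1 / 2 : ℝ) : ℝ) : ℂ) ≠ 0 := by exact_mod_cast hpos.ne'
  have h3 := (h1.div h2 hposC).mul (vN_lim m)
  rw [mul_div_cancel_left₀ _ hposC, mul_one] at h3
  refine h3.congr' ?_
  filter_upwards [eventually_ge_atTop 2, mw_zero n one_pos] with N hN hm0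
  obtain ⟨C, hC, h⟩ := Jx_eq n N hN
  have hC0 : C ≠ 0 := by
    intro h0
    rw [h0, norm_zero] at hC
    norm_num at hC
  have hN0 : (N : ℂ) ≠ 0 := by exact_mod_cast (by omega : N ≠ 0)
  have hsN : ((√N : ℝ) : ℂ) ≠ 0 := by
    have : (0 : ℝ) < √N := Real.sqrt_pos.2 (by exact_mod_cast (by omega : 0 < N))
    exact_mod_cast this.ne'
  have hT := hm0.1
  show Sm n N m / (√N * Tf N (wd n) 0) / (Sm n N 0 / (√N * Tf N (wd n) 0)) * (vN N ^ 4) ^ m = _
  rw [h m, h 0, zpow_zero, mul_one, div_div_div_cancel_right₀ (mul_ne_zero hsN hT)]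
  by_cases hS : Sm n N 0 = 0
  · rw [hS]; simp
  · field_simp

end Run7.h116.VX
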