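import Pool.Agent.Run7.h116.VX.Tr

/-!
# The trace at the root of unity
-/

set_option autoImplicit false

namespace Run7.h116.VX

open Finset Filter Topology Pool.Agent.H550R3.Jones Pool.Agent.W711.HT Pool.Agent.Y472
open Pool.Agent.Y967.CB
open scoped Real

/-- the generic trace -/
theorem gen_trace {N : ℕ} {w l : ℂ} (hw : Rt N w) (hl : Gl l) (ls : List (ℤ × ℤ)) (m : ℤ) :
    (rep (mx N (sg w l)) (mx N (sn w l)) 3 (ftw m ++ bw ls)).trace =
      N * ∑ D ∈ range (2 * N - 1), ta w l D ^ m * trI N w l ls D := by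
  have hw0 := Pool.Agent.Y448.CB.rt_ne hw
  have h1 := Pool.Agent.Y807.CB.sig1
  have h2 := Pool.Agent.Y807.CB.sig2
  have h3 := Pool.Agent.Y807.CB.sigt
  have h4 := Pool.Agent.Y317.CB.gd3
  have h5 := Pool.Agent.Y317.CB.hatm
  have h6 := Pool.Agent.Y317.CB.th
  have h7 := Pool.Agent.Y574.CB.nil
  have gX : Gd3 N w l (fullt w l m * Pool.Agent.Y448.CB.tw w l ls) :=
    Pool.Agent.Y448.CB.gd3_mul (Pool.Agent.Y448.CB.gd3_fullt h1 h2 h3 h4 hw hw0 hl.ne m)
      (Pool.Agent.Y448.CB.gd3_tw h1 h2 h3 h4 hw hw0 hl.ne ls)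
  have hact := Pool.Agent.Y516.CB.act Pool.Agent.Y678.CB.bid Pool.Agent.Y833.CB.spl
    Pool.Agent.Y317.CB.x12 h5 h4 Pool.Agent.Y494.CB.bas Pool.Agent.Y228.CB.hvt h1 h2 h3 h6 h7
    N w l hw hl
  rw [rep_trace hw hl.ne _ (Pool.Agent.Y448.CB.letters_lt m ls), Pool.Agent.Y448.CB.opw_all,
    full_trace hw hl gX]
  have key := Pool.Agent.Y448.CB.trace_split (hat w l (fullt w l m * Pool.Agent.Y448.CB.tw w l ls))
      (fun _ => 1) (fun D => ta w l D ^ m)
      (fun D => Pool.Agent.Y448.CB.PM N w l D ls)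
      (Pool.Agent.Y833.CB.basf N w l hw hl)
      (fun D i hi => Pool.Agent.Y448.CB.act_all h1 h2 h3 h4 h5 h6 h7 hw hw0 hl
        (fun a D i h1 h2 => (hact a D i h1 h2).1) (fun a D i h1 h2 => (hact a D i h1 h2).2)
        (Pool.Agent.Y516.CB.ft Pool.Agent.Y833.CB.tas Pool.Agent.Y833.CB.dec
          Pool.Agent.Y494.CB.bas h5 h4 Pool.Agent.Y228.CB.hvt h1 h2 h3 h6 h7
          Pool.Agent.Y678.CB.vwp N w l hw hl) D ls m i hi)
  simp only [one_mul] at key
  rw [key]
  rfl

/-- the generic sum in terms of the continuation -/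
theorem sum_eq2 (N : ℕ) (hN : 2 ≤ N) (G : ℤ → ℕ → ℕ → ℂ → ℂ) (ls : List (ℤ × ℤ)) (m : ℤ) (ε : ℂ)
    (hG : ∀ x ∈ ls, ∀ i j : ℕ, i ≤ j → j < N → G x.1 i j ε = gd (vN N) (-Complex.exp ε) x.1 i j ∧
      G x.2 i j ε = gd (vN N) (-Complex.exp ε) x.2 i j) :
    ∑ D ∈ range (2 * N - 1),
        ta (vN N) (-Complex.exp ε) D ^ m * trI N (vN N) (-Complex.exp ε) ls D =
      kap N m ε * ∑ p ∈ range N, (Ea (2 * m) N (chi N p ε) * Te N G ls ε (chi N p ε) +
        Ea (2 * m) N (chi N p ε) * He N G ls p ε (chi N p ε) *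
          (Complex.exp (-6 * m * N * ε) - 1)) := by
  have hMA : ∀ x ∈ ls, MA N (vN N) (-Complex.exp ε) x.1 = MAe N G ε x.1 := by
    intro x hx
    funext i j
    show (if j ≤ i then gd (vN N) (-Complex.exp ε) x.1 j i else 0) = if j ≤ i then _ else 0
    by_cases h : j ≤ i
    · rw [if_pos h, if_pos h, (hG x hx j i h i.2).1]
    · rw [if_neg h, if_neg h]
  have hMB : ∀ D p : ℕ, D + 1 + p = N → ∀ x ∈ ls,
      MB N (vN N) (-Complex.exp ε) D x.2 = MBe N G ε (chi N p ε) x.2 := by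
    intro D p hD x hx
    funext i j
    show (if i ≤ j then _ else 0) = if i ≤ j then _ else 0
    by_cases h : i ≤ j
    · rw [if_pos h, if_pos h, (hG x hx i j h j.2).2]
      congr 1
      exact Finset.prod_congr rfl fun t _ => ph_eq N D p t hN hD ε
    · rw [if_neg h, if_neg h]
  have hMB' : ∀ D p : ℕ, D + 1 + p = N → ∀ x ∈ ls,
      MB N (vN N) (-Complex.exp ε) (N + D) x.2 = MBe N G ε (chi N p ε) x.2 := by
    intro D p hD x hx
    funext i j
    show (if i ≤ j then _ else 0) = if i ≤ j then _ else 0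
    by_cases h : i ≤ j
    · rw [if_pos h, if_pos h, (hG x hx i j h j.2).2]
      congr 1
      exact Finset.prod_congr rfl fun t _ => ph_eq' N D p t hN hD ε
    · rw [if_neg h, if_neg h]
  have hlow : ∀ D p : ℕ, D + 1 + p = N → trI N (vN N) (-Complex.exp ε) ls D =
      Te N G ls ε (chi N p ε) - He N G ls p ε (chi N p ε) := by
    intro D p hD
    have k1 : (ls.map fun x => MA N (vN N) (-Complex.exp ε) x.1 *
        MB N (vN N) (-Complex.exp ε) D x.2) =
        ls.map fun x => MAe N G ε x.1 * MBe N G ε (chi N p ε) x.2 :=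
      List.map_congr_left fun x hx => by rw [hMA x hx, hMB D p hD x hx]
    have k2 : (ls.map fun x => MA N (vN N) (-Complex.exp ε) x.1 * pH N p *
        MB N (vN N) (-Complex.exp ε) D x.2 * pH N p) =
        ls.map fun x => MAe N G ε x.1 * pH N p * MBe N G ε (chi N p ε) x.2 * pH N p :=
      List.map_congr_left fun x hx => by rw [hMA x hx, hMB D p hD x hx]
    rw [trI_low N D p hD, Te, He, k1, k2]
  have hhigh : ∀ D p : ℕ, D + 1 + p = N → trI N (vN N) (-Complex.exp ε) ls (N + D) =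
      He N G ls p ε (chi N p ε) := by
    intro D p hD
    have k2 : (ls.map fun x => MA N (vN N) (-Complex.exp ε) x.1 * pH N p *
        MB N (vN N) (-Complex.exp ε) (N + D) x.2 * pH N p) =
        ls.map fun x => MAe N G ε x.1 * pH N p * MBe N G ε (chi N p ε) x.2 * pH N p :=
      List.map_congr_left fun x hx => by rw [hMA x hx, hMB' D p hD x hx]
    rw [trI, He, pI_high N D p hD, k2]
  have e1 : 2 * N - 1 = N + (N - 1) := by omega
  rw [e1, Finset.sum_range_add]
  have hlow' : ∑ D ∈ range N,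
        ta (vN N) (-Complex.exp ε) D ^ m * trI N (vN N) (-Complex.exp ε) ls D =
      ∑ p ∈ range N,
        (kap N m ε * Ea (2 * m) N (chi N p ε)) *
          (Te N G ls ε (chi N p ε) - He N G ls p ε (chi N p ε)) := by
    rw [← Finset.sum_range_reflect]
    refine Finset.sum_congr rfl fun p hp => ?_
    have hp' := Finset.mem_range.mp hp
    have hD : (N - 1 - p) + 1 + p = N := by omega
    rw [ta_eq N _ p hN hD, hlow _ p hD]
  have hhigh' : ∑ D ∈ range (N - 1),
        ta (vN N) (-Complex.exp ε) (N + D) ^ m * trI N (vN N) (-Complex.exp ε) ls (N + D) =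
      ∑ p ∈ range N,
        (kap N m ε * Ea (2 * m) N (chi N p ε) * Complex.exp (-6 * m * N * ε)) *
          He N G ls p ε (chi N p ε) := by
    have e2 : ∑ p ∈ range N,
        (kap N m ε * Ea (2 * m) N (chi N p ε) * Complex.exp (-6 * m * N * ε)) *
          He N G ls p ε (chi N p ε) =
        ∑ p ∈ range (N - 1),
        (kap N m ε * Ea (2 * m) N (chi N (p + 1) ε) * Complex.exp (-6 * m * N * ε)) *
          He N G ls (p + 1) ε (chi N (p + 1) ε) := by
      have : N = (N - 1) + 1 := by omega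
      conv_lhs => rw [this, Finset.sum_range_succ']
      rw [← this, He_zero]
      simp
    rw [e2, ← Finset.sum_range_reflect]
    refine Finset.sum_congr rfl fun p hp => ?_
    have hp' := Finset.mem_range.mp hp
    have hD : (N - 1 - 1 - p) + 1 + (p + 1) = N := by omega
    rw [ta_eq' N _ (p + 1) hN hD, hhigh _ (p + 1) hD]
  rw [hlow', hhigh', ← Finset.sum_add_distrib, Finset.mul_sum]
  refine Finset.sum_congr rfl fun p _ => ?_
  ring

/-- **The trace of a 3-braid at the root of unity.** -/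
theorem trace_formula (N : ℕ) (hN : 2 ≤ N) (ls : List (ℤ × ℤ)) : ∃ C : ℂ, ‖C‖ = 1 ∧ ∀ m : ℤ,
    (rep (crossP N (vN N)) (crossN N (vN N)) 3 (ftw m ++ bw ls)).trace =
      C * (vN N ^ 4) ^ m * N * ∑ p ∈ range N, Ea (2 * m) N (2 * π * p / N) *
        Tf N ls (2 * π * p / N) := by
  obtain ⟨c, hc, hGex⟩ := Pool.Agent.Y686.CB.gda N hN
  have hG' : ∀ (a : ℤ) (i j : ℕ), ∃ G : ℂ → ℂ, i ≤ j → j < N → (DifferentiableAt ℂ G 0 ∧
      G 0 = c a * cJ N a i j ∧
      ∀ᶠ ε in 𝓝[≠] (0 : ℂ), G ε = gd (vN N) (-Complex.exp ε) a i j) := by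
    intro a i j
    by_cases h : i ≤ j ∧ j < N
    · obtain ⟨G, h1, h2, h3⟩ := hGex a i j h.1 h.2
      exact ⟨G, fun _ _ => ⟨h1, h2, h3⟩⟩
    · exact ⟨0, fun h1 h2 => absurd ⟨h1, h2⟩ h⟩
  choose G hGs using hG'
  have hGd : ∀ a i j, i ≤ j → j < N → DifferentiableAt ℂ (G a i j) 0 :=
    fun a i j h1 h2 => (hGs a i j h1 h2).1
  have hG0 : ∀ a i j, i ≤ j → j < N → G a i j 0 = c a * cJ N a i j :=
    fun a i j h1 h2 => (hGs a i j h1 h2).2.1
  have hRt := Pool.Agent.Y195.CB.rtv N hN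
  have hw := Pool.Agent.Y195.CB.rt_ne hRt
  refine ⟨CC c ls, norm_list _ (fun x => by rw [norm_mul, hc, hc, one_mul]) ls, fun m => ?_⟩
  have hne : (-1 : ℂ) ≠ 0 := by norm_num
  -- continuity of the trace
  have hJ : Tendsto (fun ε : ℂ => (rep (mx N (sg (vN N) (-Complex.exp ε)))
      (mx N (sn (vN N) (-Complex.exp ε))) 3 (ftw m ++ bw ls)).trace) (𝓝 0)
      (𝓝 (rep (crossP N (vN N)) (crossN N (vN N)) 3 (ftw m ++ bw ls)).trace) := by
    rw [← Pool.Agent.Y195.CB.mx_sg N _ hRt, ← Pool.Agent.Y195.CB.mx_sn N _ hRt]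
    have h1 : Tendsto (fun ε : ℂ => -Complex.exp ε) (𝓝 0) (𝓝 (-1)) := by
      have h2 : Tendsto (fun ε : ℂ => -Complex.exp ε) (𝓝 0) (𝓝 (-Complex.exp 0)) :=
        (Complex.continuous_exp.tendsto 0).neg
      rwa [Complex.exp_zero] at h2
    have h2 : ContinuousAt (fun l => (rep (mx N (sg (vN N) l)) (mx N (sn (vN N) l)) 3
        (ftw m ++ bw ls)).trace) (-1) := by
      unfold Matrix.trace
      refine tendsto_finsetSum _ fun s _ => ?_
      exact Pool.Agent.Y195.CB.cont_rep (fun l => mx N (sg (vN N) l))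
        (fun l => mx N (sn (vN N) l)) (-1)
        (fun p q => Pool.Agent.Y195.CB.cont_sg N _ hw _ hne p q)
        (fun p q => Pool.Agent.Y195.CB.cont_sn N _ hw _ hne p q) 3 _ _ _
    exact h2.tendsto.comp h1
  -- the sum is equal to its continuation
  have hev : ∀ᶠ ε in 𝓝[≠] (0 : ℂ), ∀ x ∈ ls, ∀ i j : ℕ, i ≤ j → j < N →
      G x.1 i j ε = gd (vN N) (-Complex.exp ε) x.1 i j ∧
      G x.2 i j ε = gd (vN N) (-Complex.exp ε) x.2 i j := by
    have h1 : ∀ᶠ ε in 𝓝[≠] (0 : ℂ), ∀ x ∈ ls.toFinset, ∀ j ∈ range N, ∀ i ∈ range (j + 1),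
        G x.1 i j ε = gd (vN N) (-Complex.exp ε) x.1 i j ∧
        G x.2 i j ε = gd (vN N) (-Complex.exp ε) x.2 i j := by
      rw [Filter.eventually_all_finset]
      intro x _
      rw [Filter.eventually_all_finset]
      intro j hj
      rw [Filter.eventually_all_finset]
      intro i hi
      have hj' := Finset.mem_range.mp hj
      have hi' : i ≤ j := by
        have := Finset.mem_range.mp hi
        omega
      exact ((hGs x.1 i j hi' hj').2.2).and ((hGs x.2 i j hi' hj').2.2)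
    filter_upwards [h1] with ε hε x hx i j hij hj
    exact hε x (List.mem_toFinset.mpr hx) j (Finset.mem_range.mpr hj) i
      (Finset.mem_range.mpr (by omega))
  have hK : ∀ᶠ ε : ℝ in 𝓝[≠] 0, (rep (mx N (sg (vN N) (-Complex.exp (ε : ℂ))))
      (mx N (sn (vN N) (-Complex.exp (ε : ℂ)))) 3 (ftw m ++ bw ls)).trace =
      N * (kap N m (ε : ℂ) * ∑ p ∈ range N, (Ea (2 * m) N (chi N p (ε : ℂ)) *
          Te N G ls (ε : ℂ) (chi N p (ε : ℂ)) +
        Ea (2 * m) N (chi N p (ε : ℂ)) * He N G ls p (ε : ℂ) (chi N p (ε : ℂ)) *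
          (Complex.exp (-6 * m * N * (ε : ℂ)) - 1))) := by
    filter_upwards [tendsto_real.eventually hev, self_mem_nhdsWithin] with ε hε h0
    have hε0 : ε ≠ 0 := h0
    have hn : ‖-Complex.exp (ε : ℂ)‖ = Real.exp ε := by
      rw [norm_neg, Complex.norm_exp, Complex.ofReal_re]
    have hn1 : ‖-Complex.exp (ε : ℂ)‖ ≠ 1 := by
      rw [hn]
      intro h
      exact hε0 ((Real.exp_eq_one_iff ε).mp h)
    have hl0 : -Complex.exp (ε : ℂ) ≠ 0 := neg_ne_zero.mpr (Complex.exp_ne_zero _)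
    have hGl : Gl (-Complex.exp (ε : ℂ)) := ⟨hl0, hn1⟩
    rw [gen_trace hRt hGl, sum_eq2 N hN G ls m (ε : ℂ) hε]
  -- the limit of the right side
  have hR : Tendsto (fun ε : ℂ => N * (kap N m ε * ∑ p ∈ range N, (Ea (2 * m) N (chi N p ε) *
          Te N G ls ε (chi N p ε) +
        Ea (2 * m) N (chi N p ε) * He N G ls p ε (chi N p ε) *
          (Complex.exp (-6 * m * N * ε) - 1)))) (𝓝 0)
      (𝓝 (N * (kap N m 0 * ∑ p ∈ range N, (Ea (2 * m) N (chi N p 0) *
          Te N G ls 0 (chi N p 0) +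
        Ea (2 * m) N (chi N p 0) * He N G ls p 0 (chi N p 0) *
          (Complex.exp (-6 * m * N * 0) - 1))))) := by
    refine Tendsto.const_mul _ (Tendsto.mul (kap_diff N m).continuousAt ?_)
    refine tendsto_finsetSum _ fun p _ => ?_
    have hγ : ContinuousAt (fun ε : ℂ => (ε, chi N p ε)) 0 :=
      continuousAt_id.prodMk (chi_deriv N p).continuousAt
    have hE : ContinuousAt (fun ε : ℂ => Ea (2 * m) N (chi N p ε)) 0 := by
      have h1 : Continuous (Ea (2 * m) N) := by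
        unfold Ea
        fun_prop
      exact h1.continuousAt.comp (chi_deriv N p).continuousAt
    have hT : ContinuousAt (fun ε : ℂ => Te N G ls ε (chi N p ε)) 0 := by
      have h1 := (Te_diff hGd ls (chi N p 0)).continuousAt
      exact ContinuousAt.comp (g := fun x : ℂ × ℂ => Te N G ls x.1 x.2)
        (f := fun ε : ℂ => (ε, chi N p ε)) (x := 0) h1 hγ
    have hH : ContinuousAt (fun ε : ℂ => He N G ls p ε (chi N p ε)) 0 := by
      have h1 := (He_diff hGd ls p (chi N p 0)).continuousAt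
      exact ContinuousAt.comp (g := fun x : ℂ × ℂ => He N G ls p x.1 x.2)
        (f := fun ε : ℂ => (ε, chi N p ε)) (x := 0) h1 hγ
    have hX : ContinuousAt (fun ε : ℂ => Complex.exp (-6 * m * N * ε) - 1) 0 := by
      fun_prop
    exact (hE.mul hT).add ((hE.mul hH).mul hX)
  have hJ' := (hJ.mono_left nhdsWithin_le_nhds).comp tendsto_real
  have hR' := (hR.mono_left nhdsWithin_le_nhds).comp tendsto_real
  have hlim := tendsto_nhds_unique (hJ'.congr' hK) hR'
  rw [hlim]
  have hkap : kap N m 0 = (vN N ^ 4) ^ m := by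
    unfold kap
    congr 1
    simp
  have hsum : ∑ p ∈ range N, (Ea (2 * m) N (chi N p 0) * Te N G ls 0 (chi N p 0) +
        Ea (2 * m) N (chi N p 0) * He N G ls p 0 (chi N p 0) *
          (Complex.exp (-6 * m * N * 0) - 1)) =
      CC c ls * ∑ p ∈ range N, Ea (2 * m) N (2 * π * p / N) * Tf N ls (2 * π * p / N) := by
    rw [mul_sum]
    refine Finset.sum_congr rfl fun p _ => ?_
    rw [chi_zero, Te_zero hN c hG0, mul_zero, Complex.exp_zero, sub_self, mul_zero, add_zero]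
    ring
  rw [hkap, hsum]
  ring

end Run7.h116.VX
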