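import Pool.Agent.Y472.A.Final

/-!
# The trace over the three strands in terms of the highest weight vectors
-/

set_option autoImplicit false

namespace Run7.h116.VX

open Finset Filter Topology Pool.Agent.H550R3.Jones Pool.Agent.W711.HT Pool.Agent.Y472
open scoped Real

/-- `e_a ⊗ e_b ⊗ e_c` -/
def d3 (a b c : ℕ) : V3 := fun x y z => if x = a ∧ y = b ∧ z = c then 1 else 0

section

variable {N : ℕ} {w l : ℂ}

lemma F3_T3 (hw : Rt N w) (hF : ∀ x ∈ T2 N, F2 w l x ∈ T2 N) {x : V3} (hx : x ∈ T3 N) :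
    F3 w l x ∈ T3 N := by
  intro a b c h
  show qi w a * x (a - 1) b c + (KK w l a)⁻¹ * F2 w l (x a) b c = 0
  have h2 : F2 w l (x a) b c = 0 := by
    by_cases ha : N ≤ a
    · have : x a = (0 : V2) := by
        funext b' c'
        exact hx a b' c' (Or.inl ha)
      rw [this, map_zero]
      rfl
    · exact hF (x a) (fun b' c' h' => hx a b' c' (by tauto)) b c (by tauto)
  rw [h2, mul_zero, add_zero]
  by_cases h1 : N ≤ a
  · rcases h1.eq_or_lt with h3 | h3
    · rw [← h3, Pool.Agent.Y448.CB.qi_N hw, zero_mul]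
    · rw [hx (a - 1) b c (Or.inl (by omega)), mul_zero]
  · rw [hx (a - 1) b c (by tauto), mul_zero]

/-- the basis -/
noncomputable def vt (w l : ℂ) (t q s : ℕ) : V3 := (F3 w l ^ t) (Th w l (dl q s))

lemma dl_T2 {q s : ℕ} (hq : q < N) (hs : s < N) : dl q s ∈ T2 N := by
  intro a b h
  show (if a = q ∧ b = s then (1 : ℂ) else 0) = 0
  rw [if_neg]
  rintro ⟨h1, h2⟩
  omega

lemma hF2 (hw : Rt N w) (hl : l ≠ 0) : ∀ x ∈ T2 N, F2 w l x ∈ T2 N :=
  (Pool.Agent.Y807.CB.sigt N w l hw hl).2.2.2.1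

lemma pow_T3 (hw : Rt N w) (hl : l ≠ 0) (t : ℕ) {x : V3} (hx : x ∈ T3 N) :
    (F3 w l ^ t) x ∈ T3 N := by
  induction t with
  | zero => exact hx
  | succ t ih =>
    rw [pow_succ', Module.End.mul_apply]
    exact F3_T3 hw (hF2 hw hl) ih

lemma vt_T3 (hw : Rt N w) (hl : Gl l) {q s : ℕ} (hq : q < N) (hs : s < N) (t : ℕ) :
    vt w l t q s ∈ T3 N :=
  pow_T3 hw hl.ne t ((Pool.Agent.Y317.CB.th Pool.Agent.Y574.CB.nil N w l hw hl).2.2.2.1 _
    (dl_T2 hq hs))

/-- the coefficients -/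
noncomputable def kc (w l : ℂ) (D t : ℕ) : ℂ :=
  qi w (t + 1) * cb (l ^ 3 * w ^ (-2 - 2 * (D : ℤ) - (t + 1)))

lemma kc_ne (hw : Rt N w) (hl : Gl l) (D : ℕ) {t : ℕ} (ht : t + 1 < N) : kc w l D t ≠ 0 := by
  have hw0 : w ≠ 0 := by
    intro h
    have := hw.nrm
    rw [h, norm_zero] at this
    norm_num at this
  refine mul_ne_zero ?_ ?_
  · intro h
    unfold qi cb at h
    have h1 : w ^ ((t : ℤ) + 1) = (w ^ ((t : ℤ) + 1))⁻¹ := sub_eq_zero.1 h
    have h2 : (w ^ 2) ^ (t + 1) = 1 := by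
      have e : (w ^ 2) ^ (t + 1) = w ^ ((t : ℤ) + 1) * w ^ ((t : ℤ) + 1) := by
        rw [← zpow_add₀ hw0, ← pow_mul, ← zpow_natCast]
        congr 1
        push_cast
        ring
      rw [e]
      nth_rewrite 1 [h1]
      exact inv_mul_cancel₀ (zpow_ne_zero _ hw0)
    have h3 := hw.prim.dvd_of_pow_eq_one _ h2
    have := Nat.le_of_dvd (by omega) h3
    omega
  · refine Pool.Agent.Y967.CB.cb_ne (mul_ne_zero (pow_ne_zero _ hl.ne) (zpow_ne_zero _ hw0)) ?_
    rw [norm_mul, norm_pow, norm_zpow, hw.nrm, one_zpow, mul_one]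
    intro h
    exact hl.nrm ((pow_eq_one_iff_of_nonneg (norm_nonneg _) (by norm_num)).1 h)

lemma E3_zero (hw : Rt N w) (hl : Gl l) (q s : ℕ) : E3 w l (vt w l 0 q s) = 0 :=
  (Pool.Agent.Y317.CB.th Pool.Agent.Y574.CB.nil N w l hw hl).1 _

lemma E3_succ (hw : Rt N w) (hl : Gl l) (t q s : ℕ) :
    E3 w l (vt w l (t + 1) q s) = kc w l (q + s) t • vt w l t q s := by
  have h := (Pool.Agent.Y317.CB.th Pool.Agent.Y574.CB.nil N w l hw hl).2.2.2.2.2 (dl q s) (q + s) t
    (by
      intro a b hab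
      show (if a = q ∧ b = s then (1 : ℂ) else 0) = 0
      rw [if_neg]
      rintro ⟨h1, h2⟩
      omega)
  unfold vt kc
  rw [Module.End.pow_apply, Module.End.pow_apply]
  exact h

/-- linear independence -/
lemma indep (hw : Rt N w) (hl : Gl l) (T : ℕ) (hT : T ≤ N) (c : ℕ → ℕ → ℕ → ℂ)
    (h : ∑ t ∈ range T, ∑ q ∈ range N, ∑ s ∈ range N, c t q s • vt w l t q s = 0) :
    ∀ t < T, ∀ q < N, ∀ s < N, c t q s = 0 := by
  induction T generalizing c with
  | zero => intro t ht; omega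
  | succ T ih =>
    have h1 := congrArg (E3 w l) h
    rw [map_zero, sum_range_succ', map_add, map_sum] at h1
    have e0 : E3 w l (∑ q ∈ range N, ∑ s ∈ range N, c 0 q s • vt w l 0 q s) = 0 := by
      rw [map_sum]
      refine sum_eq_zero fun q _ => ?_
      rw [map_sum]
      refine sum_eq_zero fun s _ => ?_
      rw [map_smul, E3_zero hw hl, smul_zero]
    rw [e0, add_zero] at h1
    have h2 := ih (by omega) (fun t q s => c (t + 1) q s * kc w l (q + s) t) (by
      refine Eq.trans ?_ h1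
      refine sum_congr rfl fun t _ => ?_
      rw [map_sum]
      refine sum_congr rfl fun q _ => ?_
      rw [map_sum]
      refine sum_congr rfl fun s _ => ?_
      rw [map_smul, E3_succ hw hl, smul_smul])
    have h3 : ∀ t < T, ∀ q < N, ∀ s < N, c (t + 1) q s = 0 := by
      intro t ht q hq s hs
      exact (mul_eq_zero.1 (h2 t ht q hq s hs)).resolve_right (kc_ne hw hl _ (by omega))
    have h4 : ∑ q ∈ range N, ∑ s ∈ range N, c 0 q s • vt w l 0 q s = 0 := by
      rw [sum_range_succ'] at h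
      rw [sum_eq_zero, zero_add] at h
      · exact h
      · intro t ht
        rw [mem_range] at ht
        refine sum_eq_zero fun q hq => sum_eq_zero fun s hs => ?_
        rw [mem_range] at hq hs
        rw [h3 t ht q hq s hs, zero_smul]
    have h5 : ∑ q ∈ range N, ∑ s ∈ range N, c 0 q s • dl q s = 0 := by
      have h6 : Th w l (∑ q ∈ range N, ∑ s ∈ range N, c 0 q s • dl q s) = 0 := by
        refine Eq.trans ?_ h4
        rw [map_sum]
        refine sum_congr rfl fun q _ => ?_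
        rw [map_sum]
        refine sum_congr rfl fun s _ => ?_
        rw [map_smul]
        rfl
      have h7 := (Pool.Agent.Y317.CB.th Pool.Agent.Y574.CB.nil N w l hw hl).2.1
        (∑ q ∈ range N, ∑ s ∈ range N, c 0 q s • dl q s)
      rw [h6] at h7
      exact h7.symm
    intro t ht q hq s hs
    rcases Nat.eq_zero_or_pos t with h0 | h0
    · subst h0
      have h8 := congrFun (congrFun h5 q) s
      simp only [Finset.sum_apply, Pi.smul_apply, smul_eq_mul, dl, Pi.zero_apply] at h8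
      rw [sum_eq_single q, sum_eq_single s] at h8
      · simpa using h8
      · intro b _ hb
        rw [if_neg (fun h => hb h.2.symm), mul_zero]
      · intro h; exact absurd (mem_range.2 hs) h
      · intro b _ hb
        refine sum_eq_zero fun s' _ => ?_
        rw [if_neg (fun h => hb h.1.symm), mul_zero]
      · intro h; exact absurd (mem_range.2 hq) h
    · obtain ⟨t, rfl⟩ : ∃ k, t = k + 1 := ⟨t - 1, by omega⟩
      exact h3 t (by omega) q hq s hs

/-- expansion in the standard basis -/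
lemma expand3 {x : V3} (hx : x ∈ T3 N) :
    x = ∑ p : Fin N × Fin N × Fin N, x p.1 p.2.1 p.2.2 • d3 p.1 p.2.1 p.2.2 := by
  funext a b c
  simp only [Finset.sum_apply, Pi.smul_apply, smul_eq_mul, d3]
  by_cases h : a < N ∧ b < N ∧ c < N
  · rw [sum_eq_single (⟨a, h.1⟩, ⟨b, h.2.1⟩, ⟨c, h.2.2⟩)]
    · simp
    · intro p _ hp
      rw [if_neg, mul_zero]
      rintro ⟨h1, h2, h3⟩
      apply hp
      ext
      · exact h1.symm
      · exact h2.symm
      · exact h3.symm
    · simp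
  · rw [hx a b c (by omega)]
    symm
    refine sum_eq_zero fun p _ => ?_
    rw [if_neg, mul_zero]
    rintro ⟨h1, h2, h3⟩
    apply h
    rw [h1, h2, h3]
    exact ⟨p.1.2, p.2.1.2, p.2.2.2⟩

lemma pow_comm3 {X : V3 →ₗ[ℂ] V3} (gX : Gd3 N w l X) (t : ℕ) (x : V3) :
    X ((F3 w l ^ t) x) = (F3 w l ^ t) (X x) := by
  induction t with
  | zero => rfl
  | succ t ih =>
    rw [pow_succ', Module.End.mul_apply, Module.End.mul_apply, gX.f, ih]

/-- the trace -/
theorem full_trace (hw : Rt N w) (hl : Gl l) {X : V3 →ₗ[ℂ] V3} (gX : Gd3 N w l X) :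
    ∑ p : Fin N × Fin N × Fin N, X (d3 p.1 p.2.1 p.2.2) p.1 p.2.1 p.2.2 =
      N * ∑ q ∈ range N, ∑ s ∈ range N, hat w l X (dl q s) q s := by
  classical
  have hat1 := (Pool.Agent.Y317.CB.hatm Pool.Agent.Y317.CB.th Pool.Agent.Y574.CB.nil N w l hw hl
    X X gX gX).2
  let A : Matrix (Fin N × Fin N × Fin N) (Fin N × Fin N × Fin N) ℂ :=
    fun p p' => X (d3 p'.1 p'.2.1 p'.2.2) p.1 p.2.1 p.2.2
  let B : Matrix (Fin N × Fin N × Fin N) (Fin N × Fin N × Fin N) ℂ :=
    fun p p' => vt w l p'.1 p'.2.1 p'.2.2 p.1 p.2.1 p.2.2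
  let C : Matrix (Fin N × Fin N × Fin N) (Fin N × Fin N × Fin N) ℂ :=
    fun p p' => if p.1 = p'.1 then hat w l X (dl p'.2.1 p'.2.2) p.2.1 p.2.2 else 0
  have hAB : A * B = B * C := by
    ext p p'
    rw [Matrix.mul_apply, Matrix.mul_apply]
    have hv := vt_T3 hw hl p'.2.1.2 p'.2.2.2 p'.1
    have e1 : ∑ p'' : Fin N × Fin N × Fin N, A p p'' * B p'' p' =
        X (vt w l p'.1 p'.2.1 p'.2.2) p.1 p.2.1 p.2.2 := by
      conv_rhs => rw [expand3 hv, map_sum, Finset.sum_apply, Finset.sum_apply, Finset.sum_apply]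
      refine sum_congr rfl fun p'' _ => ?_
      rw [map_smul]
      show X (d3 p''.1 p''.2.1 p''.2.2) p.1 p.2.1 p.2.2 * vt w l p'.1 p'.2.1 p'.2.2 p''.1 p''.2.1 p''.2.2 =
        vt w l p'.1 p'.2.1 p'.2.2 p''.1 p''.2.1 p''.2.2 * X (d3 p''.1 p''.2.1 p''.2.2) p.1 p.2.1 p.2.2
      ring
    have e2 : X (vt w l p'.1 p'.2.1 p'.2.2) = ∑ p'' : Fin N × Fin N,
        hat w l X (dl p'.2.1 p'.2.2) p''.1 p''.2 • vt w l p'.1 p''.1 p''.2 := by
      unfold vt
      rw [pow_comm3 gX, hat1.1]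
      conv_lhs => rw [Pool.Agent.Y448.CB.expand (hat1.2 _ (dl_T2 p'.2.1.2 p'.2.2.2))]
      rw [map_sum, map_sum]
      refine sum_congr rfl fun p'' _ => ?_
      rw [map_smul, map_smul]
    rw [e1, e2, Finset.sum_apply, Finset.sum_apply, Finset.sum_apply]
    have e3 : ∑ p'' : Fin N × Fin N × Fin N, B p p'' * C p'' p' =
        ∑ r : Fin N × Fin N, vt w l p'.1 r.1 r.2 p.1 p.2.1 p.2.2 *
          hat w l X (dl p'.2.1 p'.2.2) r.1 r.2 := by
      rw [Fintype.sum_prod_type, sum_eq_single p'.1]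
      · refine sum_congr rfl fun r _ => ?_
        show vt w l p'.1 r.1 r.2 p.1 p.2.1 p.2.2 * (if p'.1 = p'.1 then _ else 0) = _
        rw [if_pos rfl]
      · intro t _ ht
        refine sum_eq_zero fun r _ => ?_
        show _ * (if t = p'.1 then _ else 0) = (0 : ℂ)
        rw [if_neg ht, mul_zero]
      · intro h; exact absurd (mem_univ _) h
    rw [e3]
    refine sum_congr rfl fun r _ => ?_
    exact mul_comm _ _
  have hdet : B.det ≠ 0 := by
    intro h0
    obtain ⟨v, hv, hB⟩ := Matrix.exists_mulVec_eq_zero_iff.2 h0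
    apply hv
    let c : ℕ → ℕ → ℕ → ℂ := fun t q s =>
      if h : t < N ∧ q < N ∧ s < N then v (⟨t, h.1⟩, ⟨q, h.2.1⟩, ⟨s, h.2.2⟩) else 0
    have hsum : ∑ t ∈ range N, ∑ q ∈ range N, ∑ s ∈ range N, c t q s • vt w l t q s = 0 := by
      have e1 : ∑ t ∈ range N, ∑ q ∈ range N, ∑ s ∈ range N, c t q s • vt w l t q s =
          ∑ p : Fin N × Fin N × Fin N, v p • vt w l p.1 p.2.1 p.2.2 := by
        rw [← Fin.sum_univ_eq_sum_range (fun t => ∑ q ∈ range N, ∑ s ∈ range N,
          c t q s • vt w l t q s) N, Fintype.sum_prod_type]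
        refine sum_congr rfl fun t _ => ?_
        rw [← Fin.sum_univ_eq_sum_range (fun q => ∑ s ∈ range N,
          c t q s • vt w l t q s) N, Fintype.sum_prod_type]
        refine sum_congr rfl fun q _ => ?_
        rw [← Fin.sum_univ_eq_sum_range (fun s => c t q s • vt w l t q s) N]
        refine sum_congr rfl fun s _ => ?_
        show (if h : (t : ℕ) < N ∧ (q : ℕ) < N ∧ (s : ℕ) < N then _ else (0 : ℂ)) • _ = _
        rw [dif_pos ⟨t.2, q.2, s.2⟩]
      rw [e1]
      funext a b d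
      rw [Finset.sum_apply, Finset.sum_apply, Finset.sum_apply]
      show ∑ p : Fin N × Fin N × Fin N, v p * vt w l p.1 p.2.1 p.2.2 a b d = 0
      by_cases h : a < N ∧ b < N ∧ d < N
      · have h2 := congrFun hB (⟨a, h.1⟩, ⟨b, h.2.1⟩, ⟨d, h.2.2⟩)
        refine Eq.trans ?_ h2
        refine sum_congr rfl fun p _ => ?_
        exact mul_comm _ _
      · refine sum_eq_zero fun p _ => ?_
        rw [vt_T3 hw hl p.2.1.2 p.2.2.2 p.1 a b d (by omega), mul_zero]
    have h1 := indep hw hl N le_rfl c hsum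
    funext p
    have h2 := h1 p.1 p.1.2 p.2.1 p.2.1.2 p.2.2 p.2.2.2
    have h3 : c p.1 p.2.1 p.2.2 = v p := dif_pos ⟨p.1.2, p.2.1.2, p.2.2.2⟩
    rw [h3] at h2
    exact h2
  have hu : IsUnit B.det := isUnit_iff_ne_zero.2 hdet
  have htr : A.trace = C.trace := by
    have hA : A = B * C * B⁻¹ := by
      rw [← hAB, mul_assoc, Matrix.mul_nonsing_inv B hu, mul_one]
    rw [hA, Matrix.trace_mul_comm, ← mul_assoc, Matrix.nonsing_inv_mul B hu, one_mul]
  have hC : C.trace = N * ∑ q ∈ range N, ∑ s ∈ range N, hat w l X (dl q s) q s := by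
    unfold Matrix.trace
    rw [Fintype.sum_prod_type]
    have e : ∀ t : Fin N, ∑ r : Fin N × Fin N, C.diag (t, r) =
        ∑ q ∈ range N, ∑ s ∈ range N, hat w l X (dl q s) q s := by
      intro t
      rw [Fintype.sum_prod_type,
        ← Fin.sum_univ_eq_sum_range (fun q => ∑ s ∈ range N, hat w l X (dl q s) q s) N]
      refine sum_congr rfl fun q _ => ?_
      rw [← Fin.sum_univ_eq_sum_range (fun s => hat w l X (dl q s) q s) N]
      refine sum_congr rfl fun s _ => ?_
      show (if t = t then _ else 0) = _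
      rw [if_pos rfl]
    rw [sum_congr rfl fun t _ => e t, sum_const, card_univ, Fintype.card_fin, nsmul_eq_mul]
  rw [← hC, ← htr]
  rfl

/-- the trace of a word as a trace of the operator -/
theorem rep_trace (hw : Rt N w) (hl : l ≠ 0) (b : List (ℕ × Bool)) (hb : ∀ g ∈ b, g.1 < 2) :
    (rep (mx N (sg w l)) (mx N (sn w l)) 3 b).trace =
      ∑ p : Fin N × Fin N × Fin N, opw w l b (d3 p.1 p.2.1 p.2.2) p.1 p.2.1 p.2.2 := by
  obtain ⟨hs, hn, -⟩ := Pool.Agent.Y807.CB.sigt N w l hw hl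
  have e : ∀ a b' c : Fin N, rep (mx N (sg w l)) (mx N (sn w l)) 3 b ![a, b', c] ![a, b', c] =
      opw w l b (d3 a b' c) a b' c := by
    intro a b' c
    have hd : d3 a b' c ∈ T3 N := by
      intro x y z h
      show (if x = (a : ℕ) ∧ y = (b' : ℕ) ∧ z = (c : ℕ) then (1 : ℂ) else 0) = 0
      rw [if_neg]
      rintro ⟨h1, h2, h3⟩
      have := a.2
      have := b'.2
      have := c.2
      omega
    have hr : Pool.Agent.Y195.CB.rs N (d3 a b' c) = Pi.single (![a, b', c] : Fin 3 → Fin N) (1 : ℂ) := by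
      funext t
      show (if ((t 0 : Fin N) : ℕ) = a ∧ ((t 1 : Fin N) : ℕ) = b' ∧ ((t 2 : Fin N) : ℕ) = c then (1 : ℂ) else 0) = _
      by_cases ht : t = ![a, b', c]
      · rw [ht, Pi.single_eq_same, if_pos ⟨rfl, rfl, rfl⟩]
      · rw [Pi.single_eq_of_ne ht, if_neg]
        rintro ⟨h1, h2, h3⟩
        apply ht
        funext i
        fin_cases i
        · exact Fin.ext h1
        · exact Fin.ext h2
        · exact Fin.ext h3
    have h := (Pool.Agent.Y195.CB.rep_opw N w l hs hn b hb _ hd).1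
    rw [hr, Matrix.mulVec_single_one] at h
    exact congrFun h ![a, b', c]
  unfold Matrix.trace
  rw [Pool.Agent.Y195.CB.sum3, Fintype.sum_prod_type]
  refine sum_congr rfl fun a _ => ?_
  rw [Fintype.sum_prod_type]
  refine sum_congr rfl fun b' _ => ?_
  refine sum_congr rfl fun c _ => ?_
  exact e a b' c

end

end Run7.h116.VX
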